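import Mathlib

/-!
# Clauses from truth tables, binary counters
-/

namespace Pool.Agent.H654R2.MED

/-- All lists of booleans of length `n`. -/
def allB : ℕ → List (List Bool)
  | 0 => [[]]
  | n + 1 => (allB n).flatMap fun l => [false :: l, true :: l]

theorem mem_allB {n : ℕ} : ∀ {l : List Bool}, l ∈ allB n ↔ l.length = n := by
  induction n with
  | zero => intro l; simp [allB]
  | succ n ih =>
    intro l
    simp only [allB, List.mem_flatMap, List.mem_cons, List.not_mem_nil, or_false]
    constructor
    · rintro ⟨l', h', rfl | rfl⟩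
      · simpa using ih.1 h'
      · simpa using ih.1 h'
    · intro h
      cases l with
      | nil => simp at h
      | cons b l =>
        refine ⟨l, ih.2 (by simpa using h), ?_⟩
        cases b <;> simp

/-- The clauses expressing that the values of the variables `vs` satisfy `φ`. -/
def tc {V : Type} (k : ℕ) (φ : List Bool → Bool) (vs : List V) : List (List (V × Bool)) :=
  ((allB k).filter fun l => !φ l).map fun l => (vs.zip l).map fun p => (p.1, !p.2)

theorem map_eq_of_zip {V : Type} (X : V → Bool) : ∀ (vs : List V) (l : List Bool),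
    vs.length = l.length → (∀ p ∈ vs.zip l, X p.1 = p.2) → vs.map X = l
  | [], [], _, _ => rfl
  | [], _ :: _, h, _ => by simp at h
  | _ :: _, [], h, _ => by simp at h
  | v :: vs, b :: l, h, hp => by
    rw [List.map_cons, hp (v, b) (by simp), map_eq_of_zip X vs l (by simpa using h)
      (fun p hp' => hp p (by simp [hp']))]

theorem zip_map_self {V : Type} (X : V → Bool) (vs : List V) (p : V × Bool)
    (h : p ∈ vs.zip (vs.map X)) : X p.1 = p.2 := by
  induction vs with
  | nil => simp at h
  | cons v vs ih =>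
    simp only [List.map_cons, List.zip_cons_cons, List.mem_cons] at h
    rcases h with rfl | h
    · rfl
    · exact ih h

theorem tc_iff {V : Type} (X : V → Bool) {k : ℕ} (φ : List Bool → Bool) {vs : List V}
    (hk : vs.length = k) :
    (∀ c ∈ tc k φ vs, ∃ l ∈ c, X l.1 = l.2) ↔ φ (vs.map X) = true := by
  constructor
  · intro h
    by_contra hφ
    have hφ' : φ (vs.map X) = false := by simpa using hφ
    have h1 : ((vs.zip (vs.map X)).map fun p => (p.1, !p.2)) ∈ tc k φ vs := by
      unfold tc
      refine List.mem_map.2 ⟨vs.map X, ?_, rfl⟩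
      rw [List.mem_filter]
      exact ⟨mem_allB.2 (by simpa using hk), by simp [hφ']⟩
    obtain ⟨l, hl, hX⟩ := h _ h1
    obtain ⟨p, hp, rfl⟩ := List.mem_map.1 hl
    have := zip_map_self X vs p hp
    simp only at hX
    rw [this] at hX
    simp at hX
  · intro hφ c hc
    unfold tc at hc
    obtain ⟨l, hl, rfl⟩ := List.mem_map.1 hc
    rw [List.mem_filter, mem_allB] at hl
    by_contra hno
    push Not at hno
    have h1 : vs.map X = l := by
      refine map_eq_of_zip X vs l (by rw [hk, hl.1]) fun p hp => ?_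
      have := hno (p.1, !p.2) (List.mem_map.2 ⟨p, hp, rfl⟩)
      simpa using this
    rw [h1] at hφ
    rw [hφ] at hl
    simp at hl

theorem tc_mem {V : Type} {k : ℕ} {φ : List Bool → Bool} {vs : List V} {c : List (V × Bool)}
    (hc : c ∈ tc k φ vs) {l : V × Bool} (hl : l ∈ c) : l.1 ∈ vs := by
  unfold tc at hc
  obtain ⟨b, _, rfl⟩ := List.mem_map.1 hc
  obtain ⟨p, hp, rfl⟩ := List.mem_map.1 hl
  exact (List.of_mem_zip hp).1

/-- The number with binary digits `b 0, ..., b (N - 1)`. -/
def vl (b : ℕ → Bool) : ℕ → ℕ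
  | 0 => 0
  | N + 1 => vl b N + (b N).toNat * 2 ^ N

theorem vl_lt (b : ℕ → Bool) (N : ℕ) : vl b N < 2 ^ N := by
  induction N with
  | zero => simp [vl]
  | succ N ih =>
    rw [vl, pow_succ]
    have h1 : (b N).toNat ≤ 1 := Bool.toNat_le _
    nlinarith [Nat.mul_le_mul_right (2 ^ N) h1]

theorem vl_congr {b b' : ℕ → Bool} {N : ℕ} (h : ∀ k < N, b k = b' k) : vl b N = vl b' N := by
  induction N with
  | zero => rfl
  | succ N ih =>
    rw [vl, vl, ih (fun k hk => h k (by omega)), h N (by omega)]

theorem vl_testBit (b : ℕ → Bool) (N : ℕ) : ∀ k < N, (vl b N).testBit k = b k := by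
  induction N with
  | zero => intro k hk; omega
  | succ N ih =>
    intro k hk
    rw [vl]
    have h1 := vl_lt b N
    rcases Nat.lt_or_ge k N with h | h
    · rw [← ih k h]
      cases hb : b N
      · simp
      · simp only [Bool.toNat_true, one_mul]
        rw [add_comm, Nat.testBit_two_pow_add_gt h]
    · have hk' : k = N := by omega
      subst hk'
      cases hb : b k
      · simp [Nat.testBit_lt_two_pow h1]
      · simp only [Bool.toNat_true, one_mul]
        rw [add_comm, Nat.testBit_two_pow_add_eq, Nat.testBit_lt_two_pow h1]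
        rfl

theorem vl_of_testBit (n N : ℕ) (hn : n < 2 ^ N) : vl (fun k => n.testBit k) N = n := by
  apply Nat.eq_of_testBit_eq
  intro k
  rcases Nat.lt_or_ge k N with h | h
  · exact vl_testBit _ N k h
  · rw [Nat.testBit_lt_two_pow (lt_of_lt_of_le (vl_lt _ N) (Nat.pow_le_pow_right (by norm_num) h)),
      Nat.testBit_lt_two_pow (lt_of_lt_of_le hn (Nat.pow_le_pow_right (by norm_num) h))]

theorem vl_inj {b b' : ℕ → Bool} {N : ℕ} (h : vl b N = vl b' N) : ∀ k < N, b k = b' k := by
  intro k hk
  rw [← vl_testBit b N k hk, h, vl_testBit b' N k hk]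

/-- `y = x + 1` with carries `c`. -/
def IncSpec (N : ℕ) (x c y : ℕ → Bool) : Prop :=
  c 0 = true ∧ ∀ k < N, y k = xor (x k) (c k) ∧ c (k + 1) = (x k && c k)

theorem IncSpec.vl {N : ℕ} {x c y : ℕ → Bool} (h : IncSpec N x c y) :
    MED.vl y N + (c N).toNat * 2 ^ N = MED.vl x N + 1 := by
  induction N with
  | zero => simp [MED.vl, h.1]
  | succ N ih =>
    have ih' := ih ⟨h.1, fun k hk => h.2 k (by omega)⟩
    obtain ⟨h1, h2⟩ := h.2 N (by omega)
    rw [MED.vl, MED.vl, h1, h2, pow_succ]
    cases hx : x N <;> cases hc : c N <;> simp [hc] at ih' ⊢ <;> omega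

/-- The carries of the increment of `x`. -/
def carry (x : ℕ → Bool) : ℕ → Bool
  | 0 => true
  | k + 1 => x k && carry x k

theorem incSpec_carry (N n : ℕ) (hn : n < 2 ^ N) :
    IncSpec N (fun k => n.testBit k) (carry fun k => n.testBit k)
      (fun k => ((n + 1) % 2 ^ N).testBit k) := by
  have h0 : IncSpec N (fun k => n.testBit k) (carry fun k => n.testBit k)
      (fun k => xor (n.testBit k) (carry (fun k => n.testBit k) k)) :=
    ⟨rfl, fun k _ => ⟨rfl, rfl⟩⟩
  have h1 := h0.vl
  rw [vl_of_testBit n N hn] at h1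
  refine ⟨rfl, fun k hk => ⟨?_, rfl⟩⟩
  have h2 : MED.vl (fun k => xor (n.testBit k) (carry (fun k => n.testBit k) k)) N =
      (n + 1) % 2 ^ N := by
    have h3 := vl_lt (fun k => xor (n.testBit k) (carry (fun k => n.testBit k) k)) N
    rw [← h1, Nat.add_mul_mod_self_right, Nat.mod_eq_of_lt h3]
  rw [← h2]
  exact vl_testBit _ N k hk

end Pool.Agent.H654R2.MED
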