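import Pool.Agent.H654R2.MED.Machine
import Pool.Agent.H671R2.PolyAuto

/-!
# The clauses are computable in polynomial time
-/

namespace Pool.Agent.NPC.H654M

open Pool.Agent.H654R2.MED

section

variable {α : Type} [TEnc α]

theorem poly_tc {V : Type} [TEnc V] {k : ℕ} {φ : List Bool → Bool} {vs : α → List V}
    (h : Poly vs) : Poly (fun a => tc k φ (vs a)) := by
  unfold tc
  have h1 : Poly (fun p : α × List Bool => ((vs p.1).zip p.2).map fun q => (q.1, !q.2)) := by
    fun_prop
  exact Poly.map (F := fun a l => ((vs a).zip l).map fun q => (q.1, !q.2)) (Poly.const _) h1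

theorem poly_nm {f : ℕ} {c : Bool} {k : α → ℕ} (hk : Poly k) :
    Poly (fun a => ((f, k a, c) : Nm)) := by
  fun_prop

theorem poly_incC {N : α → ℕ} {fx fc fy : ℕ} (hN : UPoly N) :
    Poly (fun a => incC (N a) fx fc fy) := by
  unfold incC
  refine Poly.append (Poly.const _) ?_
  refine Poly.flatMap (F := fun a k => tc 4 phInc [((fx, k, false) : Nm), (fc, k, false),
    (fy, k, false), (fc, k + 1, false)]) hN.range ?_
  exact poly_tc (by fun_prop)

theorem poly_eqC_const {n : ℕ} {f g : α → ℕ} (hf : Poly f) (hg : Poly g) :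
    Poly (fun a => eqC n (f a) (g a)) := by
  unfold eqC
  refine Poly.flatMap (F := fun a k => tc 2 phEq [((f a, k, false) : Nm), (g a, k, false)])
    (Poly.const _) ?_
  exact poly_tc (by fun_prop)

theorem poly_eqC {N : α → ℕ} {f g : α → ℕ} (hN : UPoly N) (hf : Poly f) (hg : Poly g) :
    Poly (fun a => eqC (N a) (f a) (g a)) := by
  unfold eqC
  refine Poly.flatMap (F := fun a k => tc 2 phEq [((f a, k, false) : Nm), (g a, k, false)])
    hN.range ?_
  exact poly_tc (by fun_prop)

theorem poly_dupC {W : α → ℕ} (hW : UPoly W) : Poly (fun a => dupC (W a)) := by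
  unfold dupC
  refine Poly.flatMap (F := fun a f => (List.range (W a)).flatMap fun k =>
    tc 2 phEq [((f, k, false) : Nm), (f, k, true)]) (Poly.const _) ?_
  refine Poly.flatMap (F := fun (a : α × ℕ) k => tc 2 phEq [((a.2, k, false) : Nm), (a.2, k, true)])
    (hW.range.comp (Poly.fst Poly.id)) ?_
  exact poly_tc (by fun_prop)

variable {U : Type} [TEnc U] [Fintype U] (D : Grid U)

omit [TEnc U] [Fintype U] in
theorem poly_mainC {N : α → ℕ} (hN : Poly N) : Poly (fun a => D.mainC (N a)) := by
  unfold Grid.mainC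
  refine poly_tc ?_
  unfold Grid.mainV
  exact Poly.append (by fun_prop) (Poly.const _)

theorem poly_initC {N : α → ℕ} {ins : α → List U} (hN : UPoly N) (hins : Poly ins) :
    Poly (fun a => D.initC (N a) (ins a)) := by
  unfold Grid.initC
  have hN' : Poly N := hN.toPoly
  have hR : Poly (fun a => List.range (N a)) := hN.range
  have henc : Poly D.enc := CL.polyOfFintype D.enc
  have h1 : Poly (fun a => (ins a ++ [D.bl]).zipIdx) := by fun_prop
  have hb : Poly (fun x : (α × U × ℕ) × Bool × ℕ => x.1.2.2.bits) :=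
    Poly.natBits (Poly.snd (Poly.snd (Poly.fst Poly.id)))
  have h2 : Poly (fun x : ((α × U × ℕ) × Bool × ℕ) × ℕ => x.1.1.2.2.bits.getD x.2 false) :=
    Poly.getD (hb.comp (Poly.fst Poly.id)) (Poly.snd Poly.id) (Poly.const false)
  have h3 : Poly (fun x : (α × U × ℕ) × Bool × ℕ => (List.range (N x.1.1)).map fun k =>
      (((7, k, false) : Nm), !(x.1.2.2.bits.getD k false))) :=
    Poly.map (F := fun (x : (α × U × ℕ) × Bool × ℕ) k =>
      (((7, k, false) : Nm), !(x.1.2.2.bits.getD k false)))
      (hR.comp (Poly.fst (Poly.fst Poly.id))) (by fun_prop)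
  refine Poly.flatMap (F := fun a (p : U × ℕ) => (D.enc p.1).zipIdx.map fun q =>
    (((15, q.2, false) : Nm), q.1) :: (((5, N a, false) : Nm), false) ::
      (List.range (N a)).map fun k => (((7, k, false) : Nm), !(p.2.bits.getD k false))) h1 ?_
  refine Poly.map (F := fun (x : α × U × ℕ) (q : Bool × ℕ) =>
    (((15, q.2, false) : Nm), q.1) :: (((5, N x.1, false) : Nm), false) ::
      (List.range (N x.1)).map fun k => (((7, k, false) : Nm), !(x.2.2.bits.getD k false)))
    ?_ ?_
  · fun_prop
  · fun_prop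

theorem poly_cls {N : α → ℕ} {ins : α → List U} (hN : UPoly N) (hins : Poly ins) :
    Poly (fun a => D.cls (N a) (ins a)) := by
  unfold Grid.cls
  have h0 : Poly (fun a => D.cls0 (N a) (ins a)) := by
    unfold Grid.cls0
    exact Poly.append (poly_incC hN) (Poly.append (poly_incC hN) (Poly.append (poly_incC hN)
      (Poly.append (poly_mainC D hN.toPoly) (Poly.append (poly_initC D hN hins)
      (poly_dupC (UPoly.add (UPoly.add hN (UPoly.const _)) (UPoly.const _)))))))
  have h1 : Poly (fun p : α × (ℕ × ℕ × ℕ) × ℕ => D.slotC (N p.1) p.2.1) := by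
    unfold Grid.slotC
    exact Poly.append (poly_eqC (hN.comp (Poly.fst Poly.id)) (Poly.const _) (by fun_prop))
      (Poly.append (poly_eqC (hN.comp (Poly.fst Poly.id)) (Poly.const _) (by fun_prop))
      (poly_eqC_const (Poly.const _) (by fun_prop)))
  refine Poly.append (Poly.map (F := fun _ c => ((0, c) : Cl)) h0 (by fun_prop)) ?_
  refine Poly.flatMap (F := fun a (s : (ℕ × ℕ × ℕ) × ℕ) => (D.slotC (N a) s.1).map fun c =>
    ((s.2 + 1, c) : Cl)) (Poly.const _) ?_
  exact Poly.map (l := fun p : α × (ℕ × ℕ × ℕ) × ℕ => D.slotC (N p.1) p.2.1)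
    (F := fun p c => ((p.2.2 + 1, c) : Cl)) h1 (by fun_prop)

end

end Pool.Agent.NPC.H654M
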