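import Pool.Agent.NPC.Defs
import Pool.Agent.H671R2.ZDefs

/-!
# M-eternal domination, and exponential time
-/

namespace Pool.Agent.H654R2.MED

open Turing Pool.Agent.NPC

/-- Two configurations are traversable if some bijection from the first to the second moves every
guard along an edge or leaves it in place. -/
def Traversable {V : Type*} (G : SimpleGraph V) (C₁ C₂ : Finset V) : Prop :=
  ∃ f : {v // v ∈ C₁} ≃ {v // v ∈ C₂}, ∀ u, (f u : V) = u ∨ G.Adj u (f u)

/-- An m-eternal dominating strategy of order `k`: a nonempty family of configurations of order `k`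
such that for every member `C` and every vertex `v` some member `C'` contains `v` and is equal to
`C` or traversable from `C`. -/
def IsStrategy {V : Type*} (G : SimpleGraph V) (k : ℕ) (F : Set (Finset V)) : Prop :=
  F.Nonempty ∧ (∀ C ∈ F, C.card = k) ∧
    ∀ C ∈ F, ∀ v : V, ∃ C' ∈ F, v ∈ C' ∧ (C' = C ∨ Traversable G C C')

/-- The m-eternal domination number: the least order of an m-eternal dominating strategy. -/
noncomputable def gammaM {V : Type*} (G : SimpleGraph V) : ℕ := sInf {k | ∃ F, IsStrategy G k F}

/-- The decision problem M-ETERNAL DOMINATION: given (the adjacency matrix of) a graph `G` and a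
number `k`, is the m-eternal domination number of `G` at most `k`? -/
def MED (p : List (List Bool) × ℕ) : Prop :=
  ∃ (n : ℕ) (G : SimpleGraph (Fin n)), R671.adjMatrix G = p.1 ∧ gammaM G ≤ p.2

/-- The class `EXPTIME`: some Turing machine (in the sense of Mathlib) decides `L` in time
`2 ^ p n` for a polynomial `p`. -/
def InEXPTIME (L : Set (List Bool)) : Prop :=
  ∃ (f : List Bool → Bool)
    (M : TM2ComputableInTime (id : List Bool → List Bool) (fun b : Bool => [b]) f)
    (p : Polynomial ℕ), (∀ x, x ∈ L ↔ f x = true) ∧ ∀ n, M.time n ≤ 2 ^ p.eval n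

/-- The class `PSPACE`: some Turing machine (in the sense of Mathlib) decides `L` such that, on
input `x`, in every configuration reached the length of every stack is at most `p |x|`, for a
polynomial `p`. -/
def InPSPACE (L : Set (List Bool)) : Prop :=
  ∃ (tm : FinTM2) (ein : tm.Γ tm.k₀ ≃ Bool) (eout : tm.Γ tm.k₁ ≃ Bool) (p : Polynomial ℕ),
    ∀ x : List Bool,
      (∃ (n : ℕ) (b : Bool), (b = true ↔ x ∈ L) ∧
        (flip bind tm.step)^[n] (some (initList tm (x.map ein.symm))) =
          some (haltList tm [eout.symm b])) ∧
      ∀ (i : ℕ) (c : tm.Cfg),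
        (flip bind tm.step)^[i] (some (initList tm (x.map ein.symm))) = some c →
          ∀ k, (c.stk k).length ≤ p.eval x.length

/-- Hardness for `EXPTIME` under polynomial-time many-one reductions. -/
def EXPTIMEHard (L : Set (List Bool)) : Prop := ∀ L', InEXPTIME L' → Reduces L' L

end Pool.Agent.H654R2.MED
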