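import Pool.Agent.H654R2.MED.GridSys
import Pool.Agent.H671R2.PolyAuto

/-!
# Encoding of the graph by its adjacency matrix
-/

namespace Pool.Agent.NPC.H654M

open Pool.Agent.H654R2.MED

/-- Labels of vertices: kind, name, two bits. -/
abbrev La : Type := ℕ × (ℕ × ℕ × Bool) × Bool × Bool

/-- The label of a vertex. -/
def code {W n : ℕ} : Vx (Fin 16 × Fin W × Bool) (Fin 5) (Fin n) → La
  | .sg r => (0, (r.1.val, r.2.1.val, r.2.2), false, false)
  | .x r p v => (1, (r.1.val, r.2.1.val, r.2.2), p, v)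
  | .s0 => (2, (0, 0, false), false, false)
  | .h p => (3, (0, 0, false), p, false)
  | .u => (4, (0, 0, false), false, false)
  | .T p j => (5, (j.val, 0, false), p, false)
  | .om => (6, (0, 0, false), false, false)
  | .m p => (7, (0, 0, false), p, false)
  | .ab r p => (8, (r.1.val, r.2.1.val, r.2.2), p, false)
  | .K c p => (9, (c.val, 0, false), p, false)

/-- The labels which occur. -/
def valid (W n : ℕ) (z : La) : Bool :=
  (decide (z.1 = 0) && (decide (z.2.1.1 < 16) && (decide (z.2.1.2.1 < W) && (!z.2.2.1 && !z.2.2.2)))) ||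
  ((decide (z.1 = 1) && (decide (z.2.1.1 < 16) && decide (z.2.1.2.1 < W))) ||
  ((decide (z.1 = 2) && (decide (z.2.1 = (0, 0, false)) && (!z.2.2.1 && !z.2.2.2))) ||
  ((decide (z.1 = 3) && (decide (z.2.1 = (0, 0, false)) && !z.2.2.2)) ||
  ((decide (z.1 = 4) && (decide (z.2.1 = (0, 0, false)) && (!z.2.2.1 && !z.2.2.2))) ||
  ((decide (z.1 = 5) && (decide (z.2.1.1 < 5) && (decide (z.2.1.2 = (0, false)) && !z.2.2.2))) ||
  ((decide (z.1 = 6) && (decide (z.2.1 = (0, 0, false)) && (!z.2.2.1 && !z.2.2.2))) ||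
  ((decide (z.1 = 7) && (decide (z.2.1 = (0, 0, false)) && !z.2.2.2)) ||
  ((decide (z.1 = 8) && (decide (z.2.1.1 < 16) && (decide (z.2.1.2.1 < W) && !z.2.2.2))) ||
  (decide (z.1 = 9) && (decide (z.2.1.1 < n) && (decide (z.2.1.2 = (0, false)) && !z.2.2.2)))))))))))

/-- The list of vertices. -/
def vlist (W n : ℕ) : List La :=
  ((List.range 10) ×ˢ (((List.range (16 + n)) ×ˢ ((List.range (W + 1)) ×ˢ [false, true])) ×ˢ
    ([false, true] ×ˢ [false, true]))).filter (valid W n)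

theorem code_injective {W n : ℕ} : Function.Injective (code (W := W) (n := n)) := by
  intro x y h
  have hp : ∀ r s : Fin 16 × Fin W × Bool, r.1.val = s.1.val → r.2.1.val = s.2.1.val →
      r.2.2 = s.2.2 → r = s := fun r s h1 h2 h3 => Prod.ext (Fin.ext h1) (Prod.ext (Fin.ext h2) h3)
  cases x <;> cases y <;> first
    | (exfalso
       have h1 := congrArg (fun z : La => z.1) h
       simp [code] at h1
       done)
    | simp only [code, Prod.mk.injEq, and_true, true_and] at h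
  · rw [hp _ _ h.1 h.2.1 h.2.2]
  · rw [hp _ _ h.1.1 h.1.2.1 h.1.2.2, h.2.1, h.2.2]
  · rfl
  · rw [h]
  · rfl
  · rw [Fin.ext h.1, h.2]
  · rfl
  · rw [h]
  · rw [hp _ _ h.1.1 h.1.2.1 h.1.2.2, h.2]
  · rw [Fin.ext h.1, h.2]

theorem mem_vlist {W n : ℕ} (z : La) :
    z ∈ vlist W n ↔ ∃ x : Vx (Fin 16 × Fin W × Bool) (Fin 5) (Fin n), code x = z := by
  obtain ⟨κ, ⟨a, b, c⟩, p, v⟩ := z
  unfold vlist
  simp only [List.mem_filter, List.mem_product, List.mem_range, List.mem_cons, List.not_mem_nil,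
    or_false, valid, Bool.or_eq_true, Bool.and_eq_true,
    decide_eq_true_eq, Bool.not_eq_true', Prod.mk.injEq]
  constructor
  · rintro ⟨_, h | h | h | h | h | h | h | h | h | h⟩
    · obtain ⟨rfl, h1, h2, rfl, rfl⟩ := h
      exact ⟨.sg (⟨a, h1⟩, ⟨b, h2⟩, c), rfl⟩
    · obtain ⟨rfl, h1, h2⟩ := h
      exact ⟨.x (⟨a, h1⟩, ⟨b, h2⟩, c) p v, rfl⟩
    · obtain ⟨rfl, ⟨rfl, rfl, rfl⟩, rfl, rfl⟩ := h
      exact ⟨.s0, rfl⟩
    · obtain ⟨rfl, ⟨rfl, rfl, rfl⟩, rfl⟩ := h
      exact ⟨.h p, rfl⟩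
    · obtain ⟨rfl, ⟨rfl, rfl, rfl⟩, rfl, rfl⟩ := h
      exact ⟨.u, rfl⟩
    · obtain ⟨rfl, h1, ⟨rfl, rfl⟩, rfl⟩ := h
      exact ⟨.T p ⟨a, h1⟩, rfl⟩
    · obtain ⟨rfl, ⟨rfl, rfl, rfl⟩, rfl, rfl⟩ := h
      exact ⟨.om, rfl⟩
    · obtain ⟨rfl, ⟨rfl, rfl, rfl⟩, rfl⟩ := h
      exact ⟨.m p, rfl⟩
    · obtain ⟨rfl, h1, h2, rfl⟩ := h
      exact ⟨.ab (⟨a, h1⟩, ⟨b, h2⟩, c) p, rfl⟩
    · obtain ⟨rfl, h1, ⟨rfl, rfl⟩, rfl⟩ := h
      exact ⟨.K ⟨a, h1⟩ p, rfl⟩
  · rintro ⟨x, hx⟩
    cases x with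
    | sg r =>
      simp only [code, Prod.mk.injEq] at hx
      obtain ⟨rfl, ⟨rfl, rfl, rfl⟩, rfl, rfl⟩ := hx
      have h1 := r.1.isLt
      have h2 := r.2.1.isLt
      simp
      omega
    | x r p v =>
      simp only [code, Prod.mk.injEq] at hx
      obtain ⟨rfl, ⟨rfl, rfl, rfl⟩, rfl, rfl⟩ := hx
      have h1 := r.1.isLt
      have h2 := r.2.1.isLt
      simp
      omega
    | s0 =>
      simp only [code, Prod.mk.injEq] at hx
      obtain ⟨rfl, ⟨rfl, rfl, rfl⟩, rfl, rfl⟩ := hx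
      simp
    | h p =>
      simp only [code, Prod.mk.injEq] at hx
      obtain ⟨rfl, ⟨rfl, rfl, rfl⟩, rfl, rfl⟩ := hx
      simp
    | u =>
      simp only [code, Prod.mk.injEq] at hx
      obtain ⟨rfl, ⟨rfl, rfl, rfl⟩, rfl, rfl⟩ := hx
      simp
    | T p j =>
      simp only [code, Prod.mk.injEq] at hx
      obtain ⟨rfl, ⟨rfl, rfl, rfl⟩, rfl, rfl⟩ := hx
      have h1 := j.isLt
      simp
      omega
    | om =>
      simp only [code, Prod.mk.injEq] at hx
      obtain ⟨rfl, ⟨rfl, rfl, rfl⟩, rfl, rfl⟩ := hx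
      simp
    | m p =>
      simp only [code, Prod.mk.injEq] at hx
      obtain ⟨rfl, ⟨rfl, rfl, rfl⟩, rfl, rfl⟩ := hx
      simp
    | ab r p =>
      simp only [code, Prod.mk.injEq] at hx
      obtain ⟨rfl, ⟨rfl, rfl, rfl⟩, rfl, rfl⟩ := hx
      have h1 := r.1.isLt
      have h2 := r.2.1.isLt
      simp
      omega
    | K c p =>
      simp only [code, Prod.mk.injEq] at hx
      obtain ⟨rfl, ⟨rfl, rfl, rfl⟩, rfl, rfl⟩ := hx
      have h1 := c.isLt
      simp
      omega

theorem nodup_vlist (W n : ℕ) : (vlist W n).Nodup := by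
  have hb : [false, true].Nodup := by simp
  exact (List.nodup_range.product ((List.nodup_range.product (List.nodup_range.product hb)).product
    (hb.product hb))).filter _

/-- The edges on labels. -/
def eL (cl : List Cl) (x y : La) : Bool :=
  (decide (x.1 = 0) && (decide (y.1 = 1) && decide (x.2.1 = y.2.1))) ||
  ((decide (x.1 = 1) && (decide (y.1 = 1) && (decide (x.2.1 = y.2.1) &&
    (bif decide (x.2.1.1 < 3) then xor (xor x.2.2.1 y.2.2.1) (xor x.2.2.2 y.2.2.2)
      else xor x.2.2.1 y.2.2.1)))) ||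
  ((decide (x.1 = 2) && (decide (y.1 = 3) || decide (y.1 = 4))) ||
  ((decide (x.1 = 3) && (decide (y.1 = 3) && xor x.2.2.1 y.2.2.1)) ||
  ((decide (x.1 = 3) && decide (y.1 = 4)) ||
  ((decide (x.1 = 5) && (decide (y.1 = 5) &&
    !(decide (x.2.2.1 = y.2.2.1) && decide (x.2.1.1 = y.2.1.1)))) ||
  ((decide (x.1 = 5) && (decide (y.1 = 1) || decide (y.1 = 4))) ||
  ((decide (x.1 = 6) && decide (y.1 ∈ [1, 3, 4, 5, 7, 8, 9])) ||
  ((decide (x.1 = 4) && decide (y.1 ∈ [1, 8, 9])) ||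
  ((decide (x.1 = 7) && (decide (y.1 = 3) && decide (x.2.2.1 = y.2.2.1))) ||
  ((decide (x.1 = 7) && (decide (y.1 = 5) && xor x.2.2.1 y.2.2.1)) ||
  ((decide (x.1 = 7) && (decide (y.1 = 7) && xor x.2.2.1 y.2.2.1)) ||
  ((decide (x.1 = 7) && (decide (y.1 = 8) || decide (y.1 = 9))) ||
  ((decide (x.1 = 8) && (decide (y.1 = 1) && (decide (x.2.1 = y.2.1) &&
    decide (x.2.2.1 = y.2.2.1)))) ||
  ((decide (x.1 = 8) && (decide (y.1 = 3) && xor x.2.2.1 y.2.2.1)) ||
  ((decide (x.1 = 9) && (decide (y.1 = 1) && (decide (x.2.2.1 = y.2.2.1) &&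
    decide ((y.2.1, y.2.2.2) ∈ (cl.getD x.2.1.1 (0, [])).2)))) ||
  ((decide (x.1 = 9) && (decide (y.1 = 3) && xor x.2.2.1 y.2.2.1)) ||
  (decide (x.1 = 9) && (decide (y.1 = 5) && (decide (x.2.2.1 = y.2.2.1) &&
    ((decide (0 < (cl.getD x.2.1.1 (0, [])).1) && decide ((cl.getD x.2.1.1 (0, [])).1 ≤ 5)) &&
      !decide ((cl.getD x.2.1.1 (0, [])).1 = y.2.1.1 + 1)))))))))))))))))))))

theorem eL_irrefl (cl : List Cl) (x : La) : eL cl x x = false := by
  obtain ⟨κ, a, p, v⟩ := x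
  unfold eL
  by_cases h : κ < 10
  · interval_cases κ <;> simp
  · have h' : ∀ n < 10, κ ≠ n := fun n hn => by omega
    simp [h' 0 (by norm_num), h' 1 (by norm_num), h' 2 (by norm_num), h' 3 (by norm_num),
      h' 4 (by norm_num), h' 5 (by norm_num), h' 6 (by norm_num), h' 7 (by norm_num),
      h' 8 (by norm_num), h' 9 (by norm_num)]

theorem getD_fin (cl : List Cl) (c : Fin cl.length) : cl.getD c.val (0, []) = cl[c] := by
  rw [List.getD_eq_getElem?_getD, List.getElem?_eq_getElem c.isLt]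
  rfl

theorem eL_code {W : ℕ} (cl : List Cl) (x y : Vx (Fin 16 × Fin W × Bool) (Fin 5) (Fin cl.length)) :
    eL cl (code x) (code y) = (mkSys W cl).e x y := by
  have hn : ∀ r s : Fin 16 × Fin W × Bool,
      (r.1.val = s.1.val ∧ r.2.1.val = s.2.1.val ∧ r.2.2 = s.2.2) ↔ r = s := by
    intro r s
    simp [Prod.ext_iff, Fin.ext_iff]
  have hl : ∀ (c : Fin cl.length) (j : Fin 5),
      (((0 < cl[c.val].1 ∧ cl[c.val].1 ≤ 5) ∧ ¬ cl[c.val].1 = j.val + 1) ↔
      (((mkSys W cl).lab c).isSome = true ∧ ¬ (mkSys W cl).lab c = some j)) := by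
    intro c j
    by_cases h : 0 < cl[c.val].1 ∧ cl[c.val].1 ≤ 5
    · have h1 : (mkSys W cl).lab c = some ⟨cl[c.val].1 - 1, by omega⟩ := dif_pos h
      rw [h1]
      simp only [Option.isSome_some, Option.some.injEq, Fin.ext_iff, true_and]
      omega
    · have h1 : (mkSys W cl).lab c = none := dif_neg h
      rw [h1]
      simp only [Option.isSome_none, Bool.false_eq_true, false_and, iff_false]
      exact fun h2 => h h2.1
  have hlit : ∀ (c : Fin cl.length) (r : Fin 16 × Fin W × Bool) (v : Bool),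
      ((((r.1.val, r.2.1.val, r.2.2), v) : Nm × Bool) ∈ cl[c.val].2) ↔
      (mkSys W cl).lit c r v = true := by
    intro c r v
    simp only [mkSys, decide_eq_true_eq]
    rfl
  have hA : ∀ r : Fin 16 × Fin W × Bool, r.1.val < 3 ↔ (mkSys W cl).isA r = true := by
    intro r
    simp [mkSys]
  rw [Bool.eq_iff_iff]
  cases x <;> cases y
  case K.T c p p' j =>
    simp [eL, code, Sys.e, hl]
  case sg.x r r' p v =>
    simp [eL, code, Sys.e, hn]
  case x.x r p v r' p' v' =>
    simp [eL, code, Sys.e, hn, hA]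
  case ab.x r p r' p' v =>
    simp [eL, code, Sys.e, hn]
  case K.x c p r p' v =>
    simp [eL, code, Sys.e, hlit]
  case T.T p j p' j' =>
    simp [eL, code, Sys.e, Fin.ext_iff]
  all_goals simp [eL, code, Sys.e]

open R671 in
/-- The graph of a list of clauses, on `Fin`. -/
def gr (W : ℕ) (cl : List Cl) : SimpleGraph (Fin (vlist W cl.length).length) :=
  listGraph (vlist W cl.length) (fun a b => eL cl a b || eL cl b a) (fun a b => Bool.or_comm _ _)
    (fun a => by simp [eL_irrefl])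

/-- The instance of M-ETERNAL DOMINATION of a list of clauses. -/
def encG (W : ℕ) (cl : List Cl) : List (List Bool) × ℕ :=
  ((vlist W cl.length).map fun u => (vlist W cl.length).map fun v => eL cl u v || eL cl v u,
    16 * (W * 2) + 2)

section Transfer

variable {V V' : Type*} {G : SimpleGraph V} {H : SimpleGraph V'}

theorem traversable_map (e : V ≃ V') (h : ∀ a b, G.Adj a b → H.Adj (e a) (e b))
    {C₁ C₂ : Finset V} (ht : Traversable G C₁ C₂) :
    Traversable H (C₁.map e.toEmbedding) (C₂.map e.toEmbedding) := by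
  obtain ⟨f, hf⟩ := ht
  have hm : ∀ (C : Finset V) (v : V'), v ∈ C.map e.toEmbedding ↔ e.symm v ∈ C := by
    intro C v
    simp [Finset.mem_map_equiv]
  let eqv : ∀ C : Finset V, {v // v ∈ C.map e.toEmbedding} ≃ {v // v ∈ C} := fun C =>
    { toFun := fun v => ⟨e.symm v.1, (hm C v.1).1 v.2⟩
      invFun := fun v => ⟨e v.1, (hm C _).2 (by simp)⟩
      left_inv := fun v => Subtype.ext (e.apply_symm_apply _)
      right_inv := fun v => Subtype.ext (e.symm_apply_apply _) }
  refine ⟨(eqv C₁).trans (f.trans (eqv C₂).symm), fun u => ?_⟩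
  have h1 : (((eqv C₁).trans (f.trans (eqv C₂).symm)) u : V') = e (f (eqv C₁ u)) := rfl
  rw [h1]
  have h2 : (u : V') = e (eqv C₁ u) := (e.apply_symm_apply _).symm
  rcases hf (eqv C₁ u) with h3 | h3
  · left
    rw [h3, ← h2]
  · right
    have h4 := h _ _ h3
    rw [← h2] at h4
    exact h4

theorem isStrategy_map (e : V ≃ V') (h : ∀ a b, G.Adj a b → H.Adj (e a) (e b)) {k : ℕ}
    {F : Set (Finset V)} (hF : IsStrategy G k F) :
    IsStrategy H k ((fun C => C.map e.toEmbedding) '' F) := by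
  obtain ⟨h1, h2, h3⟩ := hF
  refine ⟨h1.image _, ?_, ?_⟩
  · rintro _ ⟨C, hC, rfl⟩
    simp only [Finset.card_map]
    exact h2 C hC
  · rintro _ ⟨C, hC, rfl⟩ v
    obtain ⟨C', hC', hv, ht⟩ := h3 C hC (e.symm v)
    refine ⟨_, ⟨C', hC', rfl⟩, ?_, ?_⟩
    · simp only [Finset.mem_map_equiv]
      exact hv
    · rcases ht with rfl | ht
      · exact Or.inl rfl
      · exact Or.inr (traversable_map e h ht)

theorem gammaM_le_iff [Fintype V] {K : ℕ} :
    gammaM G ≤ K ↔ ∃ k ≤ K, ∃ F, IsStrategy G k F := by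
  have hne : {k | ∃ F, IsStrategy G k F}.Nonempty := by
    refine ⟨(Finset.univ : Finset V).card, {Finset.univ}, ⟨_, rfl⟩, ?_, ?_⟩
    · rintro C rfl
      rfl
    · rintro C rfl v
      exact ⟨_, rfl, Finset.mem_univ v, Or.inl rfl⟩
  constructor
  · intro h
    exact ⟨gammaM G, h, Nat.sInf_mem hne⟩
  · rintro ⟨k, hk, hF⟩
    exact (Nat.sInf_le hF).trans hk

end Transfer

open R671 in
theorem encG_correct (W : ℕ) (cl : List Cl) :
    MED (encG W cl) ↔ ∃ k ≤ Fintype.card (Fin 16 × Fin W × Bool) + 2,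
      ∃ F, IsStrategy (mkSys W cl).graph k F := by
  obtain ⟨e, he⟩ := exists_equiv (vlist W cl.length) (nodup_vlist _ _)
    (code (W := W) (n := cl.length)) code_injective mem_vlist
  have hcard : Fintype.card (Fin 16 × Fin W × Bool) = 16 * (W * 2) := by simp
  have hadj : ∀ a b, (gr W cl).Adj a b ↔ (mkSys W cl).graph.Adj (e a) (e b) := by
    intro a b
    change ((eL cl (vlist W cl.length)[a] (vlist W cl.length)[b] ||
      eL cl (vlist W cl.length)[b] (vlist W cl.length)[a]) = true) ↔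
      (((mkSys W cl).e (e a) (e b) || (mkSys W cl).e (e b) (e a)) = true)
    rw [← he a, ← he b, eL_code, eL_code]
  have h1 : MED (encG W cl) ↔ gammaM (gr W cl) ≤ 16 * (W * 2) + 2 := by
    have hG0 : adjMatrix (gr W cl) = (encG W cl).1 := adjMatrix_listGraph _ _ _ _
    constructor
    · rintro ⟨n, G, hG, hk⟩
      have hn : n = (vlist W cl.length).length := by
        have h1 := congrArg List.length hG
        simp only [adjMatrix, List.length_ofFn, encG, List.length_map] at h1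
        exact h1
      subst hn
      rw [adjMatrix_inj (hG0.trans hG.symm)]
      exact hk
    · intro h
      exact ⟨_, gr W cl, hG0, h⟩
  rw [h1, hcard, gammaM_le_iff]
  refine exists_congr fun k => and_congr_right fun _ => ?_
  constructor
  · rintro ⟨F, hF⟩
    exact ⟨_, isStrategy_map e (fun a b h => (hadj a b).1 h) hF⟩
  · rintro ⟨F, hF⟩
    refine ⟨_, isStrategy_map e.symm (fun a b h => ?_) hF⟩
    rw [hadj, e.apply_symm_apply, e.apply_symm_apply]
    exact h

/-! ### Computability -/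

section

variable {α : Type} [TEnc α]

theorem poly_vlist {W n : α → ℕ} (hW : UPoly W) (hn : UPoly n) :
    Poly (fun a => vlist (W a) (n a)) := by
  have hW' : Poly W := hW.toPoly
  have hn' : Poly n := hn.toPoly
  have h1 : Poly (fun a => List.range (16 + n a)) := (UPoly.add (UPoly.const _) hn).range
  have h2 : Poly (fun a => List.range (W a + 1)) := (UPoly.add hW (UPoly.const _)).range
  have h3 : Poly (fun p : α × La => valid (W p.1) (n p.1) p.2) := by
    unfold valid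
    fun_prop
  unfold vlist
  refine Poly.filter (p := fun a z => valid (W a) (n a) z) ?_ h3
  fun_prop

theorem poly_eL {cl : α → List Cl} {x y : α → La} (hcl : Poly cl) (hx : Poly x) (hy : Poly y) :
    Poly (fun a => eL (cl a) (x a) (y a)) := by
  have h1 : Poly (fun a => (cl a).getD (x a).2.1.1 (0, [])) :=
    Poly.getD hcl (by fun_prop) (Poly.const _)
  unfold eL
  fun_prop

theorem encG_poly {W : α → ℕ} {cl : α → List Cl} (hW : UPoly W) (hcl : Poly cl) :
    Poly (fun a => encG (W a) (cl a)) := by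
  have hv : Poly (fun a => vlist (W a) (cl a).length) := poly_vlist hW (UPoly.length hcl)
  have h1 : Poly (fun p : (α × La) × La => eL (cl p.1.1) p.1.2 p.2 || eL (cl p.1.1) p.2 p.1.2) :=
    Poly.or (poly_eL (hcl.comp (Poly.fst (Poly.fst Poly.id))) (Poly.snd (Poly.fst Poly.id))
      (Poly.snd Poly.id)) (poly_eL (hcl.comp (Poly.fst (Poly.fst Poly.id))) (Poly.snd Poly.id)
      (Poly.snd (Poly.fst Poly.id)))
  have h2 : Poly (fun p : α × La => (vlist (W p.1) (cl p.1).length).map fun v =>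
      eL (cl p.1) p.2 v || eL (cl p.1) v p.2) :=
    Poly.map (F := fun (p : α × La) v => eL (cl p.1) p.2 v || eL (cl p.1) v p.2)
      (hv.comp (Poly.fst Poly.id)) h1
  refine Poly.pair (Poly.map (F := fun a u => (vlist (W a) (cl a).length).map fun v =>
      eL (cl a) u v || eL (cl a) v u) hv h2) ?_
  have hW' : Poly W := hW.toPoly
  fun_prop

end

end Pool.Agent.NPC.H654M
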