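import Pool.Agent.H654R2.MED.Sys

/-!
# The graph of a two-sided constraint system: from the strong closure property to a strategy
-/

namespace Pool.Agent.H654R2.MED

namespace GComp

variable {R J Q : Type} [DecidableEq R] [DecidableEq J]

/-- the region of a vertex -/
def rg : Vx R J Q → Option (Option R)
  | .sg r => some (some r)
  | .x r _ _ => some (some r)
  | .s0 => some none
  | .h _ => some none
  | .u => some none
  | .T _ _ => none
  | .om => none
  | .m _ => none
  | .ab _ _ => none
  | .K _ _ => none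

/-- the placement with the three components -/
def pl (y0 y1 : Vx R J Q) (g : R → Vx R J Q) : Option (Option R) → Vx R J Q
  | none => y0
  | some none => y1
  | some (some r) => g r

/-- one step of a guard -/
def St (S : Sys R J Q) (a b : Vx R J Q) : Prop := b = a ∨ S.graph.Adj a b

theorem St.of_e {S : Sys R J Q} {a b : Vx R J Q} (h : S.e a b = true) : St S a b :=
  Or.inr (by show (S.e a b || S.e b a) = true; rw [h]; rfl)

theorem St.of_e' {S : Sys R J Q} {a b : Vx R J Q} (h : S.e b a = true) : St S a b :=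
  Or.inr (by show (S.e a b || S.e b a) = true; rw [h]; simp)

theorem St.refl (S : Sys R J Q) (a : Vx R J Q) : St S a a := Or.inl rfl

theorem St.symm {S : Sys R J Q} {a b : Vx R J Q} (h : St S a b) : St S b a := by
  rcases h with h | h
  · exact Or.inl h.symm
  · exact Or.inr h.symm

/-- a joint move of the guards -/
def Mv (S : Sys R J Q) (y0 y1 : Vx R J Q) (g : R → Vx R J Q) (y0' y1' : Vx R J Q)
    (g' : R → Vx R J Q) : Prop :=
  ∃ π : Equiv.Perm (Option (Option R)), ∀ i, St S (pl y0 y1 g i) (pl y0' y1' g' (π i))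

variable {S : Sys R J Q} {y0 y1 y0' y1' : Vx R J Q} {g g' : R → Vx R J Q}

theorem mv_id (h0 : St S y0 y0') (h1 : St S y1 y1') (hr : ∀ r, St S (g r) (g' r)) :
    Mv S y0 y1 g y0' y1' g' := by
  refine ⟨1, ?_⟩
  rintro (_ | _ | r)
  · exact h0
  · exact h1
  · exact hr r

theorem mv_01 (h0 : St S y0 y1') (h1 : St S y1 y0') (hr : ∀ r, St S (g r) (g' r)) :
    Mv S y0 y1 g y0' y1' g' := by
  refine ⟨Equiv.swap none (some none), ?_⟩
  rintro (_ | _ | r)
  · rw [Equiv.swap_apply_left]; exact h0
  · rw [Equiv.swap_apply_right]; exact h1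
  · rw [Equiv.swap_apply_of_ne_of_ne (by simp) (by simp)]; exact hr r

theorem mv_0r (r : R) (h0 : St S y0 (g' r)) (hr : St S (g r) y0') (h1 : St S y1 y1')
    (hs : ∀ s, s ≠ r → St S (g s) (g' s)) : Mv S y0 y1 g y0' y1' g' := by
  refine ⟨Equiv.swap none (some (some r)), ?_⟩
  rintro (_ | _ | s)
  · rw [Equiv.swap_apply_left]; exact h0
  · rw [Equiv.swap_apply_of_ne_of_ne (by simp) (by simp)]; exact h1
  · by_cases hsr : s = r
    · subst hsr
      rw [Equiv.swap_apply_right]; exact hr
    · rw [Equiv.swap_apply_of_ne_of_ne (by simp) (by simpa using hsr)]; exact hs s hsr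

theorem mv_1r (r : R) (h1 : St S y1 (g' r)) (hr : St S (g r) y1') (h0 : St S y0 y0')
    (hs : ∀ s, s ≠ r → St S (g s) (g' s)) : Mv S y0 y1 g y0' y1' g' := by
  refine ⟨Equiv.swap (some none) (some (some r)), ?_⟩
  rintro (_ | _ | s)
  · rw [Equiv.swap_apply_of_ne_of_ne (by simp) (by simp)]; exact h0
  · rw [Equiv.swap_apply_left]; exact h1
  · by_cases hsr : s = r
    · subst hsr
      rw [Equiv.swap_apply_right]; exact hr
    · rw [Equiv.swap_apply_of_ne_of_ne (by simp) (by simpa using hsr)]; exact hs s hsr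

theorem mv_0r1s (r s : R) (hrs : r ≠ s) (h0 : St S y0 (g' r)) (hr : St S (g r) y0')
    (h1 : St S y1 (g' s)) (hs : St S (g s) y1')
    (ht : ∀ t, t ≠ r → t ≠ s → St S (g t) (g' t)) : Mv S y0 y1 g y0' y1' g' := by
  have e0 : Equiv.swap (some none) (some (some s)) (none : Option (Option R)) = none :=
    Equiv.swap_apply_of_ne_of_ne (by simp) (by simp)
  have e1 : Equiv.swap none (some (some r)) (some (some s)) = some (some s) :=
    Equiv.swap_apply_of_ne_of_ne (by simp) (by simpa using hrs.symm)
  have e2 : Equiv.swap (some none) (some (some s)) (some (some r)) = some (some r) :=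
    Equiv.swap_apply_of_ne_of_ne (by simp) (by simpa using hrs)
  have e3 : Equiv.swap none (some (some r)) (some (none : Option R)) = some none :=
    Equiv.swap_apply_of_ne_of_ne (by simp) (by simp)
  refine ⟨Equiv.swap none (some (some r)) * Equiv.swap (some none) (some (some s)), ?_⟩
  rintro (_ | _ | t)
  · rw [Equiv.Perm.mul_apply, e0, Equiv.swap_apply_left]
    exact h0
  · rw [Equiv.Perm.mul_apply, Equiv.swap_apply_left, e1]
    exact h1
  · by_cases htr : t = r
    · subst htr
      rw [Equiv.Perm.mul_apply, e2, Equiv.swap_apply_right]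
      exact hr
    · by_cases hts : t = s
      · subst hts
        rw [Equiv.Perm.mul_apply, Equiv.swap_apply_right, e3]
        exact hs
      · have e4 : Equiv.swap (some none) (some (some s)) (some (some t)) = some (some t) :=
          Equiv.swap_apply_of_ne_of_ne (by simp) (by simpa using hts)
        have e5 : Equiv.swap none (some (some r)) (some (some t)) = some (some t) :=
          Equiv.swap_apply_of_ne_of_ne (by simp) (by simpa using htr)
        rw [Equiv.Perm.mul_apply, e4, e5]
        exact ht t htr hts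

/-- the positions of the register guards -/
def xs (p : Bool) (V : R → Bool) (r : R) : Vx R J Q := .x r p (V r)

/-- the positions of the clock guard -/
def Zr (z : Vx R J Q) : Prop := z = .s0 ∨ (∃ p, z = .h p) ∨ z = .u

/-- the region of a register -/
def Rr (r : R) (w : Vx R J Q) : Prop := w = .sg r ∨ ∃ p v, w = .x r p v

/-- the vertices outside the regions apart from the labels and the universal vertex -/
def Or' (v : Vx R J Q) : Prop := (∃ p, v = .m p) ∨ (∃ r p, v = .ab r p) ∨ ∃ c p, v = .K c p

/-- the family of placements -/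
inductive Fam (F : J → (R → Bool) → Prop) :
    Vx R J Q → Vx R J Q → (R → Vx R J Q) → Prop
  | G (p : Bool) (j : J) (V : R → Bool) (h : F j V) : Fam F (.T p j) (.h p) (xs p V)
  | J0 (p : Bool) (j : J) (V : R → Bool) (z : Vx R J Q) (h : F j V) (hz : Zr z) :
      Fam F .om z (xs p V)
  | J (p : Bool) (j : J) (V : R → Bool) (r : R) (w : Vx R J Q) (h : F j V) (hw : Rr r w) :
      Fam F .om .u (Function.update (xs p V) r w)
  | O (p : Bool) (j : J) (V : R → Bool) (v : Vx R J Q) (h : F j V) (hv : Or' v) :
      Fam F v .u (xs p V)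

omit [DecidableEq J] in
theorem Fam.rg_eq {F : J → (R → Bool) → Prop} (h : Fam F y0 y1 g) (i : Option (Option R)) :
    rg (pl y0 y1 g i) = i := by
  cases h with
  | G p j V h => rcases i with (_ | _ | r) <;> rfl
  | J0 p j V z h hz =>
    rcases i with (_ | _ | r)
    · rfl
    · rcases hz with rfl | ⟨p, rfl⟩ | rfl <;> rfl
    · rfl
  | J p j V r w h hw =>
    rcases i with (_ | _ | s)
    · rfl
    · rfl
    · by_cases hs : s = r
      · subst hs
        simp only [pl, Function.update_self]
        rcases hw with rfl | ⟨p, v, rfl⟩ <;> rfl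
      · simp only [pl, Function.update_of_ne hs]
        rfl
  | O p j V v h hv =>
    rcases i with (_ | _ | r)
    · rcases hv with ⟨p, rfl⟩ | ⟨r, p, rfl⟩ | ⟨c, p, rfl⟩ <;> rfl
    · rfl
    · rfl

/-! ### elementary steps -/

theorem st_T_T (S : Sys R J Q) (p q : Bool) (j j' : J) : St S (.T p j) (.T q j') := by
  by_cases h : p = q ∧ j = j'
  · rw [h.1, h.2]; exact St.refl _ _
  · refine St.of_e ?_
    simp only [Sys.e]
    by_cases hp : p = q <;> by_cases hj : j = j' <;> simp [hp, hj]
    exact h ⟨hp, hj⟩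

theorem st_h_h (S : Sys R J Q) (p q : Bool) : St S (.h p) (.h q) := by
  by_cases h : p = q
  · rw [h]; exact St.refl _ _
  · refine St.of_e ?_
    cases p <;> cases q <;> simp_all [Sys.e]

theorem st_m_m (S : Sys R J Q) (p q : Bool) : St S (.m p) (.m q) := by
  by_cases h : p = q
  · rw [h]; exact St.refl _ _
  · refine St.of_e ?_
    cases p <;> cases q <;> simp_all [Sys.e]

theorem st_Z_Z (S : Sys R J Q) {z z' : Vx R J Q} (hz : Zr z) (hz' : Zr z') : St S z z' := by
  rcases hz with rfl | ⟨p, rfl⟩ | rfl <;> rcases hz' with rfl | ⟨q, rfl⟩ | rfl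
  · exact St.refl _ _
  · exact St.of_e rfl
  · exact St.of_e rfl
  · exact St.of_e' rfl
  · exact st_h_h _ _ _
  · exact St.of_e rfl
  · exact St.of_e' rfl
  · exact St.of_e' rfl
  · exact St.refl _ _

theorem st_om_O (S : Sys R J Q) {v : Vx R J Q} (hv : Or' v) : St S .om v := by
  rcases hv with ⟨p, rfl⟩ | ⟨r, p, rfl⟩ | ⟨c, p, rfl⟩ <;> exact St.of_e rfl

theorem st_sg_x (S : Sys R J Q) (r : R) (p v : Bool) : St S (.sg r) (.x r p v) :=
  St.of_e (by simp [Sys.e])

omit [DecidableEq R] [DecidableEq J] in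
theorem zr_h (p : Bool) : Zr (.h p : Vx R J Q) := Or.inr (Or.inl ⟨p, rfl⟩)

omit [DecidableEq R] [DecidableEq J] in
theorem zr_u : Zr (.u : Vx R J Q) := Or.inr (Or.inr rfl)

/-- the goodness of the family -/
def Closed (S : Sys R J Q) (F : J → (R → Bool) → Prop) : Prop :=
  ∀ j V, F j V → S.Ok j V ∧ ∀ p q j', ∃ V', F j' V' ∧
    ∀ r, St S (.x r p (V r)) (.x r q (V' r))

theorem closed_of_strong {F : J → (R → Bool) → Prop} (hF : ∀ j X, F j X → S.Ok j X ∧ ∀ j',
    (∃ X', F j' X' ∧ ∀ r, S.isA r = true → X' r = X r) ∧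
    (∃ X', F j' X' ∧ ∀ r, S.isA r = false → X' r = X r)) : Closed S F := by
  intro j V hV
  refine ⟨(hF j V hV).1, fun p q j' => ?_⟩
  by_cases hpq : p = q
  · subst hpq
    obtain ⟨V', h1, h2⟩ := ((hF j V hV).2 j').2
    refine ⟨V', h1, fun r => ?_⟩
    by_cases hA : S.isA r = true
    · by_cases hv : V r = V' r
      · rw [hv]; exact St.refl _ _
      · refine St.of_e ?_
        simp only [Sys.e, hA, decide_true, Bool.true_and, cond_true]
        revert hv
        cases p <;> cases V r <;> cases V' r <;> simp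
    · rw [h2 r (by simpa using hA)]; exact St.refl _ _
  · obtain ⟨V', h1, h2⟩ := ((hF j V hV).2 j').1
    refine ⟨V', h1, fun r => ?_⟩
    by_cases hA : S.isA r = true
    · rw [h2 r hA]
      refine St.of_e ?_
      simp only [Sys.e, hA, decide_true, Bool.true_and, cond_true]
      revert hpq
      cases p <;> cases q <;> cases V r <;> simp
    · refine St.of_e ?_
      simp only [Sys.e, hA, decide_true, Bool.true_and]
      revert hpq
      cases p <;> cases q <;> simp

/-- Every outer vertex is dominated by a placement `G(p, j, V)`, in one of three ways. -/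
theorem dom (S : Sys R J Q) {j : J} {V : R → Bool} (hok : S.Ok j V) (p : Bool) {v : Vx R J Q}
    (hv : Or' v) : St S v (.T p j) ∨ St S v (.h p) ∨ ∃ r, St S v (.x r p (V r)) := by
  rcases hv with ⟨q, rfl⟩ | ⟨r, q, rfl⟩ | ⟨c, q, rfl⟩
  · by_cases h : q = p
    · subst h
      exact Or.inr (Or.inl (St.of_e (by simp [Sys.e])))
    · refine Or.inl (St.of_e ?_)
      revert h
      cases p <;> cases q <;> simp [Sys.e]
  · by_cases h : q = p
    · subst h
      exact Or.inr (Or.inr ⟨r, St.of_e (by simp [Sys.e])⟩)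
    · refine Or.inr (Or.inl (St.of_e ?_))
      revert h
      cases p <;> cases q <;> simp [Sys.e]
  · by_cases h : q = p
    · subst h
      by_cases hl : S.lab c = none ∨ S.lab c = some j
      · obtain ⟨r, hr⟩ := hok c hl
        exact Or.inr (Or.inr ⟨r, St.of_e (by simp [Sys.e, hr])⟩)
      · push Not at hl
        refine Or.inl (St.of_e ?_)
        simp [Sys.e, hl.2, Option.isSome_iff_ne_none.2 hl.1]
    · refine Or.inr (Or.inl (St.of_e ?_))
      revert h
      cases p <;> cases q <;> simp [Sys.e]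

/-- A response exists. -/
def Resp (S : Sys R J Q) (F : J → (R → Bool) → Prop) (y0 y1 : Vx R J Q) (g : R → Vx R J Q)
    (v : Vx R J Q) : Prop :=
  ∃ y0' y1' g', Fam F y0' y1' g' ∧ (∃ i, pl y0' y1' g' i = v) ∧ Mv S y0 y1 g y0' y1' g'

variable {F : J → (R → Bool) → Prop}

/-- the attack on a label vertex -/
theorem resp_T (hF : Closed S F) (hf : Fam F y0 y1 g) (q : Bool) (j' : J) :
    Resp S F y0 y1 g (.T q j') := by
  cases hf with
  | G p j V h =>
    obtain ⟨V', h1, h2⟩ := (hF j V h).2 p q j'
    exact ⟨_, _, _, Fam.G q j' V' h1, ⟨none, rfl⟩, mv_id (st_T_T _ _ _ _ _) (st_h_h _ _ _) h2⟩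
  | J0 p j V z h hz =>
    obtain ⟨V', h1, h2⟩ := (hF j V h).2 p q j'
    exact ⟨_, _, _, Fam.G q j' V' h1, ⟨none, rfl⟩,
      mv_id (St.of_e rfl) (st_Z_Z _ hz (zr_h q)) h2⟩
  | J p j V r w h hw =>
    obtain ⟨V', h1, h2⟩ := (hF j V h).2 p q j'
    refine ⟨_, _, _, Fam.G q j' V' h1, ⟨none, rfl⟩, ?_⟩
    rcases hw with rfl | ⟨p1, v1, rfl⟩
    · refine mv_id (St.of_e rfl) (st_Z_Z _ zr_u (zr_h q)) fun s => ?_
      by_cases hs : s = r
      · subst hs
        rw [Function.update_self]
        exact st_sg_x _ _ _ _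
      · rw [Function.update_of_ne hs]
        exact h2 s
    · refine mv_0r r (St.of_e rfl) ?_ (st_Z_Z _ zr_u (zr_h q)) fun s hs => ?_
      · rw [Function.update_self]
        exact St.of_e' rfl
      · rw [Function.update_of_ne hs]
        exact h2 s
  | O p j V v h hv =>
    obtain ⟨V', h1, h2⟩ := (hF j V h).2 p q j'
    refine ⟨_, _, _, Fam.G q j' V' h1, ⟨none, rfl⟩, ?_⟩
    rcases dom S (hF j' V' h1).1 q hv with h3 | h3 | ⟨r, h3⟩
    · exact mv_id h3 (st_Z_Z _ zr_u (zr_h q)) h2
    · exact mv_01 h3 (St.of_e' rfl) h2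
    · exact mv_0r r h3 (St.of_e' rfl) (st_Z_Z _ zr_u (zr_h q)) fun s _ => h2 s

/-- the attack on the universal vertex -/
theorem resp_om (hf : Fam F y0 y1 g) : Resp S F y0 y1 g .om := by
  cases hf with
  | G p j V h =>
    exact ⟨_, _, _, Fam.J0 p j V (.h p) h (zr_h p), ⟨none, rfl⟩,
      mv_id (St.of_e' rfl) (St.refl _ _) fun _ => St.refl _ _⟩
  | J0 p j V z h hz =>
    exact ⟨_, _, _, Fam.J0 p j V _ h hz, ⟨none, rfl⟩,
      mv_id (St.refl _ _) (St.refl _ _) fun _ => St.refl _ _⟩
  | J p j V r w h hw =>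
    exact ⟨_, _, _, Fam.J p j V r w h hw, ⟨none, rfl⟩,
      mv_id (St.refl _ _) (St.refl _ _) fun _ => St.refl _ _⟩
  | O p j V v h hv =>
    exact ⟨_, _, _, Fam.J0 p j V .u h zr_u, ⟨none, rfl⟩,
      mv_id (st_om_O _ hv).symm (St.refl _ _) fun _ => St.refl _ _⟩

/-- the attack on the region of the clock -/
theorem resp_Z (hf : Fam F y0 y1 g) {z : Vx R J Q} (hz : Zr z) : Resp S F y0 y1 g z := by
  cases hf with
  | G p j V h =>
    exact ⟨_, _, _, Fam.J0 p j V z h hz, ⟨some none, rfl⟩,
      mv_id (St.of_e' rfl) (st_Z_Z _ (zr_h p) hz) fun _ => St.refl _ _⟩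
  | J0 p j V z' h hz' =>
    exact ⟨_, _, _, Fam.J0 p j V z h hz, ⟨some none, rfl⟩,
      mv_id (St.refl _ _) (st_Z_Z _ hz' hz) fun _ => St.refl _ _⟩
  | J p j V r w h hw =>
    refine ⟨_, _, _, Fam.J0 p j V z h hz, ⟨some none, rfl⟩, ?_⟩
    rcases hw with rfl | ⟨p1, v1, rfl⟩
    · refine mv_id (St.refl _ _) (st_Z_Z _ zr_u hz) fun s => ?_
      by_cases hs : s = r
      · subst hs
        rw [Function.update_self]
        exact st_sg_x _ _ _ _
      · rw [Function.update_of_ne hs]
        exact St.refl _ _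
    · refine mv_0r r (St.of_e rfl) ?_ (st_Z_Z _ zr_u hz) fun s hs => ?_
      · rw [Function.update_self]
        exact St.of_e' rfl
      · rw [Function.update_of_ne hs]
        exact St.refl _ _
  | O p j V v h hv =>
    exact ⟨_, _, _, Fam.J0 p j V z h hz, ⟨some none, rfl⟩,
      mv_id (st_om_O _ hv).symm (st_Z_Z _ zr_u hz) fun _ => St.refl _ _⟩

/-- the attack on an outer vertex -/
theorem resp_O (hF : Closed S F) (hf : Fam F y0 y1 g) {v : Vx R J Q} (hv : Or' v) :
    Resp S F y0 y1 g v := by
  cases hf with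
  | G p j V h =>
    refine ⟨_, _, _, Fam.O p j V v h hv, ⟨none, rfl⟩, ?_⟩
    rcases dom S (hF j V h).1 p hv with h3 | h3 | ⟨r, h3⟩
    · exact mv_id h3.symm (St.of_e rfl) fun _ => St.refl _ _
    · exact mv_01 (St.of_e rfl) h3.symm fun _ => St.refl _ _
    · exact mv_0r r (St.of_e rfl) h3.symm (St.of_e rfl) fun _ _ => St.refl _ _
  | J0 p j V z h hz =>
    exact ⟨_, _, _, Fam.O p j V v h hv, ⟨none, rfl⟩,
      mv_id (st_om_O _ hv) (st_Z_Z _ hz zr_u) fun _ => St.refl _ _⟩
  | J p j V r w h hw =>
    refine ⟨_, _, _, Fam.O p j V v h hv, ⟨none, rfl⟩, ?_⟩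
    rcases hw with rfl | ⟨p1, v1, rfl⟩
    · refine mv_id (st_om_O _ hv) (St.refl _ _) fun s => ?_
      by_cases hs : s = r
      · subst hs
        rw [Function.update_self]
        exact st_sg_x _ _ _ _
      · rw [Function.update_of_ne hs]
        exact St.refl _ _
    · refine mv_1r r (St.of_e rfl) ?_ (st_om_O _ hv) fun s hs => ?_
      · rw [Function.update_self]
        exact St.of_e' rfl
      · rw [Function.update_of_ne hs]
        exact St.refl _ _
  | O p j V v' h hv' =>
    refine ⟨_, _, _, Fam.O p j V v h hv, ⟨none, rfl⟩, ?_⟩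
    rcases hv' with ⟨q', rfl⟩ | ⟨r', q', rfl⟩ | ⟨c', q', rfl⟩
    · refine mv_id ?_ (St.refl _ _) fun _ => St.refl _ _
      rcases hv with ⟨q, rfl⟩ | ⟨r, q, rfl⟩ | ⟨c, q, rfl⟩
      · exact st_m_m _ _ _
      · exact St.of_e rfl
      · exact St.of_e rfl
    · rcases hv with ⟨q, rfl⟩ | ⟨r, q, rfl⟩ | ⟨c, q, rfl⟩
      · exact mv_id (St.of_e' rfl) (St.refl _ _) fun _ => St.refl _ _
      · exact mv_01 (St.of_e' rfl) (St.of_e rfl) fun _ => St.refl _ _
      · exact mv_01 (St.of_e' rfl) (St.of_e rfl) fun _ => St.refl _ _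
    · rcases hv with ⟨q, rfl⟩ | ⟨r, q, rfl⟩ | ⟨c, q, rfl⟩
      · exact mv_id (St.of_e' rfl) (St.refl _ _) fun _ => St.refl _ _
      · exact mv_01 (St.of_e' rfl) (St.of_e rfl) fun _ => St.refl _ _
      · exact mv_01 (St.of_e' rfl) (St.of_e rfl) fun _ => St.refl _ _

omit [DecidableEq J] in
theorem up_mem (f : R → Vx R J Q) (r : R) (w : Vx R J Q) :
    ∃ i, pl .om .u (Function.update f r w) i = w := ⟨some (some r), by simp [pl]⟩

/-- the attack on the region of a register -/
theorem resp_R (hf : Fam F y0 y1 g) {r : R} {w : Vx R J Q} (hw : Rr r w) :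
    Resp S F y0 y1 g w := by
  cases hf with
  | G p j V h =>
    refine ⟨_, _, _, Fam.J p j V r w h hw, up_mem _ _ _, ?_⟩
    rcases hw with rfl | ⟨p1, v1, rfl⟩
    · refine mv_id (St.of_e' rfl) (St.of_e rfl) fun s => ?_
      by_cases hs : s = r
      · subst hs
        rw [Function.update_self]
        exact (st_sg_x _ _ _ _).symm
      · rw [Function.update_of_ne hs]
        exact St.refl _ _
    · refine mv_0r r ?_ (St.of_e' rfl) (St.of_e rfl) fun s hs => ?_
      · rw [Function.update_self]
        exact St.of_e rfl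
      · rw [Function.update_of_ne hs]
        exact St.refl _ _
  | J0 p j V z h hz =>
    refine ⟨_, _, _, Fam.J p j V r w h hw, up_mem _ _ _, ?_⟩
    rcases hw with rfl | ⟨p1, v1, rfl⟩
    · refine mv_id (St.refl _ _) (st_Z_Z _ hz zr_u) fun s => ?_
      by_cases hs : s = r
      · subst hs
        rw [Function.update_self]
        exact (st_sg_x _ _ _ _).symm
      · rw [Function.update_of_ne hs]
        exact St.refl _ _
    · refine mv_0r r ?_ (St.of_e' rfl) (st_Z_Z _ hz zr_u) fun s hs => ?_
      · rw [Function.update_self]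
        exact St.of_e rfl
      · rw [Function.update_of_ne hs]
        exact St.refl _ _
  | O p j V v h hv =>
    refine ⟨_, _, _, Fam.J p j V r w h hw, up_mem _ _ _, ?_⟩
    rcases hw with rfl | ⟨p1, v1, rfl⟩
    · refine mv_id (st_om_O _ hv).symm (St.refl _ _) fun s => ?_
      by_cases hs : s = r
      · subst hs
        rw [Function.update_self]
        exact (st_sg_x _ _ _ _).symm
      · rw [Function.update_of_ne hs]
        exact St.refl _ _
    · refine mv_1r r ?_ (St.of_e' rfl) (st_om_O _ hv).symm fun s hs => ?_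
      · rw [Function.update_self]
        exact St.of_e rfl
      · rw [Function.update_of_ne hs]
        exact St.refl _ _
  | J p j V r' w' h hw' =>
    refine ⟨_, _, _, Fam.J p j V r w h hw, up_mem _ _ _, ?_⟩
    by_cases hr : r = r'
    · subst hr
      rcases hw with rfl | ⟨p1, v1, rfl⟩
      · refine mv_id (St.refl _ _) (St.refl _ _) fun s => ?_
        by_cases hs : s = r
        · subst hs
          rw [Function.update_self, Function.update_self]
          rcases hw' with rfl | ⟨p2, v2, rfl⟩
          · exact St.refl _ _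
          · exact (st_sg_x _ _ _ _).symm
        · rw [Function.update_of_ne hs, Function.update_of_ne hs]
          exact St.refl _ _
      · rcases hw' with rfl | ⟨p2, v2, rfl⟩
        · refine mv_id (St.refl _ _) (St.refl _ _) fun s => ?_
          by_cases hs : s = r
          · subst hs
            rw [Function.update_self, Function.update_self]
            exact st_sg_x _ _ _ _
          · rw [Function.update_of_ne hs, Function.update_of_ne hs]
            exact St.refl _ _
        · refine mv_0r r ?_ ?_ (St.refl _ _) fun s hs => ?_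
          · rw [Function.update_self]
            exact St.of_e rfl
          · rw [Function.update_self]
            exact St.of_e' rfl
          · rw [Function.update_of_ne hs, Function.update_of_ne hs]
            exact St.refl _ _
    · rcases hw with rfl | ⟨p1, v1, rfl⟩ <;> rcases hw' with rfl | ⟨p2, v2, rfl⟩
      · refine mv_id (St.refl _ _) (St.refl _ _) fun s => ?_
        by_cases hs : s = r
        · subst hs
          rw [Function.update_self, Function.update_of_ne hr]
          exact (st_sg_x _ _ _ _).symm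
        · rw [Function.update_of_ne hs]
          by_cases hs' : s = r'
          · subst hs'
            rw [Function.update_self]
            exact st_sg_x _ _ _ _
          · rw [Function.update_of_ne hs']
            exact St.refl _ _
      · refine mv_0r r' ?_ ?_ (St.refl _ _) fun s hs => ?_
        · rw [Function.update_of_ne (Ne.symm hr)]
          exact St.of_e rfl
        · rw [Function.update_self]
          exact St.of_e' rfl
        · rw [Function.update_of_ne hs]
          by_cases hs' : s = r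
          · subst hs'
            rw [Function.update_self]
            exact (st_sg_x _ _ _ _).symm
          · rw [Function.update_of_ne hs']
            exact St.refl _ _
      · refine mv_0r r ?_ ?_ (St.refl _ _) fun s hs => ?_
        · rw [Function.update_self]
          exact St.of_e rfl
        · rw [Function.update_of_ne hr]
          exact St.of_e' rfl
        · rw [Function.update_of_ne hs]
          by_cases hs' : s = r'
          · subst hs'
            rw [Function.update_self]
            exact st_sg_x _ _ _ _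
          · rw [Function.update_of_ne hs']
            exact St.refl _ _
      · refine mv_0r1s r' r (Ne.symm hr) ?_ ?_ ?_ ?_ fun s hs hs' => ?_
        · rw [Function.update_of_ne (Ne.symm hr)]
          exact St.of_e rfl
        · rw [Function.update_self]
          exact St.of_e' rfl
        · rw [Function.update_self]
          exact St.of_e rfl
        · rw [Function.update_of_ne hr]
          exact St.of_e' rfl
        · rw [Function.update_of_ne hs, Function.update_of_ne hs']
          exact St.refl _ _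

/-- all attacks -/
theorem resp (hF : Closed S F) (hf : Fam F y0 y1 g) (v : Vx R J Q) : Resp S F y0 y1 g v := by
  cases v with
  | sg r => exact resp_R hf (r := r) (Or.inl rfl)
  | x r p v => exact resp_R hf (r := r) (Or.inr ⟨p, v, rfl⟩)
  | s0 => exact resp_Z hf (Or.inl rfl)
  | h p => exact resp_Z hf (zr_h p)
  | u => exact resp_Z hf zr_u
  | T p j => exact resp_T hF hf p j
  | om => exact resp_om hf
  | m p => exact resp_O hF hf (Or.inl ⟨p, rfl⟩)
  | ab r p => exact resp_O hF hf (Or.inr (Or.inl ⟨r, p, rfl⟩))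
  | K c p => exact resp_O hF hf (Or.inr (Or.inr ⟨c, p, rfl⟩))

/-- the configuration of a placement -/
noncomputable def conf [Fintype R] (y0 y1 : Vx R J Q) (g : R → Vx R J Q) : Finset (Vx R J Q) :=
  open Classical in Finset.univ.image (pl y0 y1 g)

theorem mem_conf [Fintype R] {y0 y1 : Vx R J Q} {g : R → Vx R J Q} {v : Vx R J Q} :
    v ∈ conf y0 y1 g ↔ ∃ i, pl y0 y1 g i = v := by
  simp [conf]

omit [DecidableEq J] in
theorem Fam.inj (h : Fam F y0 y1 g) : Function.Injective (pl y0 y1 g) := by
  intro i i' hi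
  rw [← h.rg_eq i, ← h.rg_eq i', hi]

theorem card_conf [Fintype R] (h : Fam F y0 y1 g) :
    (conf y0 y1 g).card = Fintype.card R + 2 := by
  classical
  rw [conf, Finset.card_image_of_injective _ h.inj, Finset.card_univ, Fintype.card_option,
    Fintype.card_option]

theorem trav [Fintype R] (h : Fam F y0 y1 g) (h' : Fam F y0' y1' g')
    (hm : Mv S y0 y1 g y0' y1' g') :
    Traversable S.graph (conf y0 y1 g) (conf y0' y1' g') := by
  obtain ⟨π, hπ⟩ := hm
  let e1 : Option (Option R) ≃ {v // v ∈ conf y0 y1 g} :=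
    Equiv.ofBijective (fun i => ⟨pl y0 y1 g i, mem_conf.2 ⟨i, rfl⟩⟩)
      ⟨fun i i' hi => h.inj (congrArg Subtype.val hi), fun ⟨v, hv⟩ => by
        obtain ⟨i, hi⟩ := mem_conf.1 hv
        exact ⟨i, Subtype.ext hi⟩⟩
  let e2 : Option (Option R) ≃ {v // v ∈ conf y0' y1' g'} :=
    Equiv.ofBijective (fun i => ⟨pl y0' y1' g' i, mem_conf.2 ⟨i, rfl⟩⟩)
      ⟨fun i i' hi => h'.inj (congrArg Subtype.val hi), fun ⟨v, hv⟩ => by
        obtain ⟨i, hi⟩ := mem_conf.1 hv
        exact ⟨i, Subtype.ext hi⟩⟩
  refine ⟨e1.symm.trans (π.trans e2), fun a => ?_⟩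
  obtain ⟨i, rfl⟩ := e1.surjective a
  have h1 : (((e1.symm.trans (π.trans e2)) (e1 i) : {v // v ∈ conf y0' y1' g'}) : Vx R J Q)
      = pl y0' y1' g' (π i) := by
    simp only [Equiv.trans_apply, Equiv.symm_apply_apply]
    rfl
  rw [h1]
  exact hπ i

end GComp

open GComp in
/-- From the strong closure property to a strategy with `card R + 2` guards. -/
theorem Sys.complete {R J Q : Type} [DecidableEq R] [DecidableEq J] [Fintype R] (S : Sys R J Q)
    (h : S.Strong) : ∃ F, IsStrategy S.graph (Fintype.card R + 2) F := by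
  obtain ⟨F, ⟨j0, V0, h0⟩, hF⟩ := h
  have hC : Closed S F := closed_of_strong hF
  refine ⟨{C | ∃ y0 y1 g, Fam F y0 y1 g ∧ C = conf y0 y1 g}, ?_, ?_, ?_⟩
  · exact ⟨_, _, _, _, Fam.G false j0 V0 h0, rfl⟩
  · rintro C ⟨y0, y1, g, hf, rfl⟩
    exact card_conf hf
  · rintro C ⟨y0, y1, g, hf, rfl⟩ v
    obtain ⟨y0', y1', g', h1, h2, h3⟩ := resp hC hf v
    exact ⟨_, ⟨_, _, _, h1, rfl⟩, mem_conf.2 h2, Or.inr (trav hf h1 h3)⟩

end Pool.Agent.H654R2.MED
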