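import Pool.Agent.H550R2.Iso.Iter
import Pool.Agent.H550R2.Iso.Machine

/-!
# PSPACE is closed under polynomial-time many-one reductions
-/

namespace Pool.Agent.NPC.PIso

theorem inPSPACE_of_reduces {L L' : Set (List Bool)} (hr : Reduces L L') (h : InPSPACE L') :
    InPSPACE L := by
  obtain ⟨g, hg, hL⟩ := hr
  obtain ⟨D⟩ := exists_sys h
  have hgP : Poly g := poly_iff.2 hg
  obtain ⟨q, hq⟩ := hgP.sz_le
  refine inPSPACE_iter D.δ D.H (acc := D.A) (init := fun x => D.c₀ (g x)) D.poly_δ D.poly_H D.poly_A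
    (D.poly_c₀.comp hgP) (4 * (D.N.comp (q.comp (4 * Polynomial.X + 1))) + 1) fun x => ?_
  obtain ⟨n, h1, h2, h3, h4⟩ := D.halts (g x)
  refine ⟨n, h2, h3, fun i hi => ?_, (hL x).trans h4⟩
  have h5 : (D.δ^[i] (D.c₀ (g x))).size ≤ D.N.eval (g x).length := Nat.size_le.2 (h1 i hi)
  have h6 := sz_nat_le (D.δ^[i] (D.c₀ (g x)))
  have h7 : (g x).length ≤ q.eval (4 * x.length + 1) :=
    (length_lt_sz (g x)).le.trans ((hq x).trans (eval_mono q (sz_listBool_le x)))
  have h8 := eval_mono D.N h7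
  simp only [Polynomial.eval_add, Polynomial.eval_mul, Polynomial.eval_comp, Polynomial.eval_one,
    Polynomial.eval_X, Polynomial.eval_ofNat]
  omega

end Pool.Agent.NPC.PIso
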