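import Pool.Agent.H654R2.MED.Enc
import Pool.Agent.H654R2.MED.ClsPoly
import Pool.Agent.H654R2.MED.GComp
import Pool.Agent.H768R2.MED.GSound
import Pool.Agent.H654R2.MED.PSp

/-!
# M-ETERNAL DOMINATION is EXPTIME-hard
-/

namespace Pool.Agent.NPC.H654M

open Turing Pool.Agent.H654R2.MED Pool.Agent.NPC.CL

/-- The system of a machine is solvable iff the machine accepts. -/
theorem sys_iff (tm : FinTM2) (inE : tm.Γ tm.k₀ ≃ Bool) (outE : tm.Γ tm.k₁ ≃ Bool)
    (x : List Bool) (b : Bool) (B N : ℕ)
    (hV : TM2OutputsInTime tm (List.map inE.invFun x) (some (List.map outE.invFun [b])) B)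
    (hN : B * maxDepth tm ≤ 2 ^ N - 1) (hx : x.length < 2 ^ N) :
    MED (encG (N + (gridOf (tab tm inE outE)).w + 1)
      ((gridOf (tab tm inE outE)).cls N (x.map (inVal (tab tm inE outE))))) ↔ b = true := by
  have hM : 0 < 2 ^ N := Nat.two_pow_pos N
  have hacc : (gridOf (tab tm inE outE)).acc ((gridOf (tab tm inE outE)).row
      (x.map (inVal (tab tm inE outE))) (2 ^ N) (2 ^ N - 1) 0) = b := by
    rw [row_eq_real _ _ _ _ _ (by omega)]
    have h1 := tab_read tm inE outE x b B (2 ^ N - 1) hV hN
    rw [← cont_zero] at h1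
    exact h1
  rw [encG_correct]
  constructor
  · rintro ⟨k, hk, F, hF⟩
    rw [← hacc]
    exact grid_sound (Sys.sound _ hk hF)
  · intro hb
    rw [hb] at hacc
    obtain ⟨F, hF⟩ := Sys.complete _ (grid_complete (ins := x.map (inVal (tab tm inE outE)))
      (by
        intro u hu
        obtain ⟨c, _, rfl⟩ := List.mem_map.1 hu
        intro h
        have h1 := congrFun (congrArg Prod.snd h) (tab tm inE outE).k₀
        simp [inVal, gridOf] at h1) (by rwa [List.length_map]) hacc)
    exact ⟨_, le_rfl, F, hF⟩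

theorem med_hard : EXPTIMEHard (lang MED) := by
  rintro L ⟨f, M, p, hf, hp⟩
  classical
  letI := encFintype (Val (NQ M.tm) M.tm.K (NA M.tm))
  have hN : UPoly (fun x : List Bool => p.eval x.length + (maxDepth M.tm + x.length + 1)) :=
    UPoly.add (UPoly.eval (UPoly.length Poly.id) p)
      (UPoly.add (UPoly.add (UPoly.const _) (UPoly.length Poly.id)) (UPoly.const 1))
  have hins : Poly (fun x : List Bool =>
      x.map (inVal (tab M.tm M.inputAlphabet M.outputAlphabet))) :=
    Poly.map (F := fun _ b => inVal (tab M.tm M.inputAlphabet M.outputAlphabet) b) Poly.id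
      ((polyOfFintype (inVal (tab M.tm M.inputAlphabet M.outputAlphabet))).comp (Poly.snd Poly.id))
  have hpoly := encG_poly (UPoly.add (UPoly.add hN
    (UPoly.const (gridOf (tab M.tm M.inputAlphabet M.outputAlphabet)).w)) (UPoly.const 1))
    (poly_cls (gridOf (tab M.tm M.inputAlphabet M.outputAlphabet)) hN hins)
  have key : ∀ x : List Bool, MED (encG (p.eval x.length + (maxDepth M.tm + x.length + 1) +
      (gridOf (tab M.tm M.inputAlphabet M.outputAlphabet)).w + 1)
      ((gridOf (tab M.tm M.inputAlphabet M.outputAlphabet)).cls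
        (p.eval x.length + (maxDepth M.tm + x.length + 1))
        (x.map (inVal (tab M.tm M.inputAlphabet M.outputAlphabet))))) ↔ f x = true := by
    intro x
    have h1 : 2 ^ p.eval x.length * 2 ^ (maxDepth M.tm + x.length + 1) =
        2 ^ (p.eval x.length + (maxDepth M.tm + x.length + 1)) := (pow_add _ _ _).symm
    have h2 : maxDepth M.tm + x.length + 1 < 2 ^ (maxDepth M.tm + x.length + 1) :=
      Nat.lt_two_pow_self
    have h3 : 0 < 2 ^ p.eval x.length := Nat.two_pow_pos _
    have h4 := hp x.length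
    have h5 : M.time x.length * maxDepth M.tm ≤ 2 ^ p.eval x.length * maxDepth M.tm :=
      Nat.mul_le_mul_right _ h4
    refine sys_iff M.tm M.inputAlphabet M.outputAlphabet x (f x) _ _ (M.outputsFun x) ?_ ?_
    · simp only [id_eq]
      rw [← h1]
      have h6 : 2 ^ p.eval x.length * (maxDepth M.tm + x.length + 1 + 1) ≤
          2 ^ p.eval x.length * 2 ^ (maxDepth M.tm + x.length + 1) := Nat.mul_le_mul_left _ h2
      have h7 : 2 ^ p.eval x.length * (maxDepth M.tm + x.length + 1 + 1) =
        2 ^ p.eval x.length * maxDepth M.tm + 2 ^ p.eval x.length * (x.length + 2) := by ring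
      have h8 : 0 < 2 ^ p.eval x.length * (x.length + 2) := by positivity
      omega
    · rw [← h1]
      nlinarith
  refine ⟨_, PC.toPolyTime (PC.comp hpoly PC.ofBits), fun x => ?_⟩
  rw [hf x, ← key x]
  constructor
  · intro h
    exact ⟨_, rfl, h⟩
  · rintro ⟨I, hI, h⟩
    have h9 := bits_injective hI
    rwa [h9] at h

theorem pspace_collapse (h : Pool.Agent.H654R2.MED.InPSPACE (lang MED)) (L : Set (List Bool))
    (hL : InEXPTIME L) : Pool.Agent.H654R2.MED.InPSPACE L :=
  PIso.inPSPACE_of_reduces (L' := lang MED) (med_hard L hL) h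

end Pool.Agent.NPC.H654M
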