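import Pool.Agent.H654R2.MED.Defs

/-!
# Two-sided constraint systems and their graphs
-/

namespace Pool.Agent.H654R2.MED

/-- A constraint system: registers `R` (those with `isA` form the first side, the others the second
side), labels `J`, clauses `Q`. A clause with `lab q = none` is always active, a clause with
`lab q = some j` only under the label `j`; it contains the literal `r = v` iff `lit q r v`. -/
structure Sys (R J Q : Type) where
  /-- the side of a register -/
  isA : R → Bool
  /-- the label of a clause -/
  lab : Q → Option J
  /-- the literals of a clause -/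
  lit : Q → R → Bool → Bool

variable {R J Q : Type}

/-- All clauses active under `j` hold. -/
def Sys.Ok (S : Sys R J Q) (j : J) (X : R → Bool) : Prop :=
  ∀ q, (S.lab q = none ∨ S.lab q = some j) → ∃ r, S.lit q r (X r) = true

/-- The closure property: the label can be changed at will, holding any of the two sides. -/
def Sys.Strong (S : Sys R J Q) : Prop :=
  ∃ F : J → (R → Bool) → Prop, (∃ j X, F j X) ∧ ∀ j X, F j X → S.Ok j X ∧ ∀ j',
    (∃ X', F j' X' ∧ ∀ r, S.isA r = true → X' r = X r) ∧
    (∃ X', F j' X' ∧ ∀ r, S.isA r = false → X' r = X r)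

/-- The weak closure property: on the side which should be held, one register may change. -/
def Sys.Weak (S : Sys R J Q) : Prop :=
  ∃ F : J → (R → Bool) → Prop, (∃ j X, F j X) ∧ ∀ j X, F j X → S.Ok j X ∧ ∀ j',
    (∃ X', F j' X' ∧ ∀ r s, S.isA r = true → S.isA s = true → X' r ≠ X r → X' s ≠ X s → r = s) ∧
    (∃ X', F j' X' ∧ ∀ r s, S.isA r = false → S.isA s = false → X' r ≠ X r → X' s ≠ X s → r = s)

/-- The vertices of the graph. -/
inductive Vx (R J Q : Type) : Type
  /-- anchor of a register -/
  | sg (r : R)
  /-- position of the guard of a register: phase `p`, value `v` -/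
  | x (r : R) (p v : Bool)
  /-- anchor of the clock -/
  | s0
  /-- positions of the clock -/
  | h (p : Bool)
  /-- the parking position of the clock -/
  | u
  /-- label vertices -/
  | T (p : Bool) (j : J)
  /-- the universal vertex (up to anchors) -/
  | om
  /-- vertices forcing the clock -/
  | m (p : Bool)
  /-- vertices forcing a register to have the right phase -/
  | ab (r : R) (p : Bool)
  /-- clause vertices -/
  | K (c : Q) (p : Bool)
  deriving DecidableEq

variable [DecidableEq R] [DecidableEq J]

/-- The edges (each is listed in at least one direction). -/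
def Sys.e (S : Sys R J Q) : Vx R J Q → Vx R J Q → Bool
  | .sg r, .x r' _ _ => decide (r = r')
  | .x r p v, .x r' p' v' => decide (r = r') && (bif S.isA r then xor (xor p p') (xor v v') else xor p p')
  | .s0, .h _ => true
  | .s0, .u => true
  | .h p, .h p' => xor p p'
  | .h _, .u => true
  | .T p j, .T p' j' => !(decide (p = p') && decide (j = j'))
  | .T _ _, .x _ _ _ => true
  | .T _ _, .u => true
  | .om, .x _ _ _ => true
  | .om, .h _ => true
  | .om, .u => true
  | .om, .T _ _ => true
  | .om, .m _ => true
  | .om, .ab _ _ => true
  | .om, .K _ _ => true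
  | .u, .x _ _ _ => true
  | .u, .ab _ _ => true
  | .u, .K _ _ => true
  | .m p, .h p' => decide (p = p')
  | .m p, .T p' _ => xor p p'
  | .m p, .m p' => xor p p'
  | .m _, .ab _ _ => true
  | .m _, .K _ _ => true
  | .ab r p, .x r' p' _ => decide (r = r') && decide (p = p')
  | .ab _ p, .h p' => xor p p'
  | .K c p, .x r p' v => decide (p = p') && S.lit c r v
  | .K _ p, .h p' => xor p p'
  | .K c p, .T p' j => decide (p = p') && ((S.lab c).isSome && !decide (S.lab c = some j))
  | _, _ => false

theorem Sys.e_irrefl (S : Sys R J Q) (a : Vx R J Q) : S.e a a = false := by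
  cases a <;> simp [Sys.e]

/-- The graph. -/
def Sys.graph (S : Sys R J Q) : SimpleGraph (Vx R J Q) where
  Adj a b := (S.e a b || S.e b a) = true
  symm := ⟨fun a b h => by rw [Bool.or_comm]; exact h⟩
  loopless := ⟨fun a h => by rw [S.e_irrefl] at h; exact absurd h (by simp)⟩

end Pool.Agent.H654R2.MED
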