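import Pool.Agent.H654R2.MED.Clauses
import Pool.Agent.H654R2.MED.Sys

/-!
# Deterministic space-time tables and the constraint system checking them
-/

namespace Pool.Agent.H654R2.MED

/-- The local rules of a deterministic space-time table with values in `U`. -/
structure Grid (U : Type) where
  /-- the value far to the right in the initial row -/
  bl : U
  /-- the new value in column 0, from the old values in columns 0 and 1 -/
  n0 : U → U → U
  /-- the new value in column `i + 1`, from the old values in columns `i`, `i + 1`, `i + 2` and the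
  new value in column `i` -/
  n1 : U → U → U → U → U
  /-- acceptance -/
  acc : U → Bool
  /-- length of the codes -/
  w : ℕ
  /-- codes of the values -/
  enc : U → List Bool
  enc_length : ∀ u, (enc u).length = w
  enc_inj : Function.Injective enc

variable {U : Type}

/-- The next row, on a circle of length `M`. -/
def Grid.next (D : Grid U) (M : ℕ) (r : ℕ → U) : ℕ → U
  | 0 => D.n0 (r 0) (r (1 % M))
  | i + 1 => D.n1 (r i) (r (i + 1)) (r ((i + 2) % M)) (Grid.next D M r i)

/-- The rows. -/
def Grid.row (D : Grid U) (ins : List U) (M : ℕ) : ℕ → ℕ → U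
  | 0 => fun i => ins.getD i D.bl
  | t + 1 => D.next M (Grid.row D ins M t)

/-- Names of registers: field, index, copy. -/
abbrev Nm : Type := ℕ × ℕ × Bool

/-- The truth table of an increment. -/
def phInc : List Bool → Bool
  | [x, c, y, c'] => (y == xor x c) && (c' == (x && c))
  | _ => false

/-- The truth table of equality. -/
def phEq : List Bool → Bool
  | [x, y] => x == y
  | _ => false

/-- The truth table of a single true variable. -/
def phT : List Bool → Bool
  | [x] => x
  | _ => false

/-- The relation between the values in a window. -/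
def Grid.Rel (D : Grid U) (zt zi : Bool) (a b c d o : U) : Prop :=
  (zt = false → zi = true → o = D.n0 b c) ∧ (zt = false → zi = false → o = D.n1 a b c d) ∧
    (zt = true → zi = false → d = D.bl → o = D.bl) ∧ (zt = true → zi = true → D.acc b = true)

open Classical in
/-- The truth table of this relation. -/
noncomputable def Grid.phMain (D : Grid U) (l : List Bool) : Bool :=
  decide (∃ (zt zi : Bool) (a b c d o : U),
    l = [zt, zi] ++ (D.enc a ++ (D.enc b ++ (D.enc c ++ (D.enc d ++ D.enc o)))) ∧
      D.Rel zt zi a b c d o)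

/-- The bits of a field. -/
def fld (f n : ℕ) : List Nm := (List.range n).map fun k => (f, k, false)

/-- Clauses: label code (0 for clauses which are always active) and literals. -/
abbrev Cl : Type := ℕ × List (Nm × Bool)

/-- Increment clauses. -/
def incC (N fx fc fy : ℕ) : List (List (Nm × Bool)) :=
  tc 1 phT [((fc, 0, false) : Nm)] ++ (List.range N).flatMap fun k =>
    tc 4 phInc [((fx, k, false) : Nm), (fc, k, false), (fy, k, false), (fc, k + 1, false)]

/-- The variables of the main table. -/
def Grid.mainV (D : Grid U) (N : ℕ) : List Nm :=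
  [((5, N, false) : Nm), (8, N, false)] ++ (fld 11 D.w ++ (fld 12 D.w ++ (fld 13 D.w ++
    (fld 14 D.w ++ fld 15 D.w))))

/-- The clauses of the main table. -/
noncomputable def Grid.mainC (D : Grid U) (N : ℕ) : List (List (Nm × Bool)) :=
  tc (2 + 5 * D.w) D.phMain (D.mainV N)

/-- The clauses for the initial row. -/
def Grid.initC (D : Grid U) (N : ℕ) (ins : List U) : List (List (Nm × Bool)) :=
  (ins ++ [D.bl]).zipIdx.flatMap fun p => (D.enc p.1).zipIdx.map fun q =>
    (((15, q.2, false) : Nm), q.1) :: (((5, N, false) : Nm), false) ::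
      (List.range N).map fun k => (((7, k, false) : Nm), !(p.2.bits.getD k false))

/-- Both copies agree. -/
def dupC (W : ℕ) : List (List (Nm × Bool)) :=
  (List.range 16).flatMap fun f => (List.range W).flatMap fun k =>
    tc 2 phEq [((f, k, false) : Nm), (f, k, true)]

/-- Two fields agree. -/
def eqC (n f g : ℕ) : List (List (Nm × Bool)) :=
  (List.range n).flatMap fun k => tc 2 phEq [((f, k, false) : Nm), (g, k, false)]

/-- The first side is a copy of a slot of the second side. -/
def Grid.slotC (D : Grid U) (N : ℕ) (s : ℕ × ℕ × ℕ) : List (List (Nm × Bool)) :=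
  eqC N 0 s.1 ++ (eqC N 1 s.2.1 ++ eqC D.w 2 s.2.2)

/-- The slots: field of the row number, field of the column number, field of the value. -/
def slots : List (ℕ × ℕ × ℕ) := [(3, 6, 11), (3, 7, 12), (3, 9, 13), (4, 6, 14), (4, 7, 15)]

/-- The always active clauses. -/
noncomputable def Grid.cls0 (D : Grid U) (N : ℕ) (ins : List U) : List (List (Nm × Bool)) :=
  incC N 3 5 4 ++ (incC N 6 8 7 ++ (incC N 7 10 9 ++ (D.mainC N ++ (D.initC N ins ++
    dupC (N + D.w + 1)))))

/-- All clauses. -/
noncomputable def Grid.cls (D : Grid U) (N : ℕ) (ins : List U) : List Cl :=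
  (D.cls0 N ins).map (fun c => (0, c)) ++
    slots.zipIdx.flatMap fun s => (D.slotC N s.1).map fun c => (s.2 + 1, c)

/-- Satisfaction of a list of clauses. -/
def Sat (X : Nm → Bool) (cs : List (List (Nm × Bool))) : Prop := ∀ c ∈ cs, ∃ l ∈ c, X l.1 = l.2

theorem Sat.append_iff {X : Nm → Bool} {cs ds : List (List (Nm × Bool))} :
    Sat X (cs ++ ds) ↔ Sat X cs ∧ Sat X ds := by
  simp [Sat, or_imp, forall_and]

theorem Sat.flatMap_iff {X : Nm → Bool} {α : Type} {l : List α}
    {f : α → List (List (Nm × Bool))} : Sat X (l.flatMap f) ↔ ∀ a ∈ l, Sat X (f a) := by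
  simp only [Sat, List.mem_flatMap]
  constructor
  · intro h a ha c hc
    exact h c ⟨a, ha, hc⟩
  · rintro h c ⟨a, ha, hc⟩
    exact h a ha c hc

theorem sat_incC {X : Nm → Bool} {N fx fc fy : ℕ} : Sat X (incC N fx fc fy) ↔
    IncSpec N (fun k => X (fx, k, false)) (fun k => X (fc, k, false)) fun k => X (fy, k, false) := by
  unfold incC IncSpec
  rw [Sat.append_iff, Sat.flatMap_iff]
  have h1 : Sat X (tc 1 phT [((fc, 0, false) : Nm)]) ↔ X (fc, 0, false) = true := by
    unfold Sat
    rw [tc_iff X phT (by rfl)]
    simp [phT]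
  rw [h1]
  refine and_congr_right fun _ => ?_
  constructor
  · intro h k hk
    have h2 := h k (List.mem_range.2 hk)
    unfold Sat at h2
    rw [tc_iff X phInc (by rfl)] at h2
    simpa [phInc] using h2
  · intro h k hk
    have h2 := h k (List.mem_range.1 hk)
    unfold Sat
    rw [tc_iff X phInc (by rfl)]
    simpa [phInc] using h2

theorem sat_eqC {X : Nm → Bool} {n f g : ℕ} : Sat X (eqC n f g) ↔
    ∀ k < n, X (f, k, false) = X (g, k, false) := by
  unfold eqC
  rw [Sat.flatMap_iff]
  have h1 : ∀ k, Sat X (tc 2 phEq [((f, k, false) : Nm), (g, k, false)]) ↔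
      X (f, k, false) = X (g, k, false) := by
    intro k
    unfold Sat
    rw [tc_iff X phEq (by rfl)]
    simp [phEq]
  simp only [h1, List.mem_range]

theorem sat_dupC {X : Nm → Bool} {W : ℕ} : Sat X (dupC W) ↔
    ∀ f < 16, ∀ k < W, X (f, k, false) = X (f, k, true) := by
  unfold dupC
  rw [Sat.flatMap_iff]
  have h1 : ∀ f k, Sat X (tc 2 phEq [((f, k, false) : Nm), (f, k, true)]) ↔
      X (f, k, false) = X (f, k, true) := by
    intro f k
    unfold Sat
    rw [tc_iff X phEq (by rfl)]
    simp [phEq]
  simp only [Sat.flatMap_iff, h1, List.mem_range]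

/-- The value of a field. -/
def bv (X : Nm → Bool) (f n : ℕ) : List Bool := (fld f n).map X

theorem fld_length (f n : ℕ) : (fld f n).length = n := by simp [fld]

theorem bv_eq (X : Nm → Bool) (f n : ℕ) : bv X f n = (List.range n).map fun k => X (f, k, false) := by
  simp [bv, fld, Function.comp_def]

theorem bv_eq_iff (X : Nm → Bool) (f n : ℕ) (l : List Bool) (hl : l.length = n) :
    bv X f n = l ↔ ∀ k < n, X (f, k, false) = l.getD k false := by
  rw [bv_eq]
  constructor
  · intro h k hk
    rw [← h]
    simp [hk]
  · intro h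
    apply List.ext_getElem
    · simp [hl]
    · intro k h1 h2
      have h3 : k < n := by simpa using h1
      simp only [List.getElem_map, List.getElem_range]
      rw [h k h3, List.getD_eq_getElem?_getD, List.getElem?_eq_getElem h2]
      rfl

theorem sat_mainC {X : Nm → Bool} (D : Grid U) {N : ℕ} : Sat X (D.mainC N) ↔
    ∃ a b c d o : U, bv X 11 D.w = D.enc a ∧ bv X 12 D.w = D.enc b ∧ bv X 13 D.w = D.enc c ∧
      bv X 14 D.w = D.enc d ∧ bv X 15 D.w = D.enc o ∧
      D.Rel (X (5, N, false)) (X (8, N, false)) a b c d o := by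
  unfold Grid.mainC Sat
  have hlen : (D.mainV N).length = 2 + 5 * D.w := by
    simp only [Grid.mainV, List.length_append, fld_length, List.length_cons, List.length_nil]
    omega
  rw [tc_iff X D.phMain hlen]
  simp only [Grid.phMain, decide_eq_true_eq]
  have hmap : (D.mainV N).map X = [X (5, N, false), X (8, N, false)] ++ (bv X 11 D.w ++
      (bv X 12 D.w ++ (bv X 13 D.w ++ (bv X 14 D.w ++ bv X 15 D.w)))) := by
    simp [Grid.mainV, bv]
  rw [hmap]
  have hb : ∀ f, (bv X f D.w).length = D.w := by
    intro f
    simp [bv, fld_length]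
  constructor
  · rintro ⟨zt, zi, a, b, c, d, o, he, hr⟩
    simp only [List.cons_append, List.nil_append, List.cons.injEq] at he
    obtain ⟨h1, h2, he⟩ := he
    obtain ⟨h3, he⟩ := List.append_inj he (by rw [hb, D.enc_length])
    obtain ⟨h4, he⟩ := List.append_inj he (by rw [hb, D.enc_length])
    obtain ⟨h5, he⟩ := List.append_inj he (by rw [hb, D.enc_length])
    obtain ⟨h6, h7⟩ := List.append_inj he (by rw [hb, D.enc_length])
    refine ⟨a, b, c, d, o, h3, h4, h5, h6, h7, ?_⟩
    rw [h1, h2]
    exact hr
  · rintro ⟨a, b, c, d, o, h3, h4, h5, h6, h7, hr⟩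
    exact ⟨_, _, a, b, c, d, o, by rw [h3, h4, h5, h6, h7], hr⟩

theorem getD_bits (n k : ℕ) : n.bits.getD k false = n.testBit k := by
  rw [Nat.testBit_eq_inth]
  rfl

theorem sat_initC {X : Nm → Bool} (D : Grid U) {N : ℕ} {ins : List U} :
    Sat X (D.initC N ins) ↔ ∀ m ≤ ins.length, X (5, N, false) = true →
      (∀ k < N, X (7, k, false) = m.testBit k) → bv X 15 D.w = D.enc (ins.getD m D.bl) := by
  have hget : ∀ m ≤ ins.length, (ins ++ [D.bl])[m]? = some (ins.getD m D.bl) := by
    intro m hm
    rw [List.getD_eq_getElem?_getD]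
    rcases Nat.lt_or_ge m ins.length with h | h
    · rw [List.getElem?_append_left h, List.getElem?_eq_getElem h]
      rfl
    · have : m = ins.length := by omega
      subst this
      simp
  unfold Grid.initC Sat
  constructor
  · intro h m hm h5 h7
    rw [bv_eq_iff X 15 D.w _ (D.enc_length _)]
    intro k hk
    have hk' : k < (D.enc (ins.getD m D.bl)).length := by rw [D.enc_length]; exact hk
    obtain ⟨l, hl, hX⟩ := h _ (List.mem_flatMap.2 ⟨(ins.getD m D.bl, m),
      List.mem_zipIdx_iff_getElem?.2 (hget m hm),
      List.mem_map.2 ⟨((D.enc (ins.getD m D.bl))[k], k),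
        List.mem_zipIdx_iff_getElem?.2 (by simp [List.getElem?_eq_getElem hk']), rfl⟩⟩)
    simp only [List.mem_cons, List.mem_map, List.mem_range] at hl
    rcases hl with rfl | rfl | ⟨k', hk', rfl⟩
    · simp only at hX
      rw [hX]
      generalize D.enc (ins.getD m D.bl) = L at hk'
      rw [List.getD_eq_getElem?_getD, List.getElem?_eq_getElem hk']
      rfl
    · simp only at hX
      rw [hX] at h5
      exact absurd h5 (by simp)
    · simp only at hX
      rw [getD_bits, h7 k' hk'] at hX
      simp at hX
  · intro h c hc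
    obtain ⟨⟨u, m⟩, hm, hc⟩ := List.mem_flatMap.1 hc
    obtain ⟨⟨b, k⟩, hk, rfl⟩ := List.mem_map.1 hc
    have hm' := List.mem_zipIdx_iff_getElem?.1 hm
    have hk' := List.mem_zipIdx_iff_getElem?.1 hk
    simp only at hm' hk'
    have hml : m ≤ ins.length := by
      have := (List.getElem?_eq_some_iff.1 hm').1
      simp at this
      omega
    have hu : u = ins.getD m D.bl := by
      rw [hget m hml] at hm'
      exact (Option.some.inj hm').symm
    by_cases h5 : X (5, N, false) = true
    · by_cases h7 : ∀ k < N, X (7, k, false) = m.testBit k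
      · refine ⟨_, List.mem_cons_self, ?_⟩
        have h8 := h m hml h5 h7
        have hkw : k < D.w := by
          have := (List.getElem?_eq_some_iff.1 hk').1
          rwa [D.enc_length] at this
        rw [bv_eq_iff X 15 D.w _ (D.enc_length _)] at h8
        simp only
        rw [h8 k hkw, ← hu, List.getD_eq_getElem?_getD, hk']
        rfl
      · push Not at h7
        obtain ⟨k', hk1, hk2⟩ := h7
        refine ⟨(((7, k', false) : Nm), !(m.bits.getD k' false)), ?_, ?_⟩
        · refine List.mem_cons_of_mem _ (List.mem_cons_of_mem _ ?_)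
          exact List.mem_map.2 ⟨k', List.mem_range.2 hk1, rfl⟩
        · simp only [getD_bits]
          cases hx : X (7, k', false) <;> cases hb : m.testBit k' <;> simp_all
    · refine ⟨(((5, N, false) : Nm), false), ?_, ?_⟩
      · exact List.mem_cons_of_mem _ List.mem_cons_self
      · simpa using h5

end Pool.Agent.H654R2.MED
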