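import Pool.Agent.H654R2.MED.GridSound

/-!
# Completeness of the constraint system of a space-time table
-/

namespace Pool.Agent.H654R2.MED

variable {U : Type}

/-- The names in a list of clauses are in the range of the registers. -/
def InR (W : ℕ) (cs : List (List (Nm × Bool))) : Prop :=
  ∀ c ∈ cs, ∀ l ∈ c, l.1.1 < 16 ∧ l.1.2.1 < W

theorem InR.append {W : ℕ} {cs ds : List (List (Nm × Bool))} (h : InR W cs) (h' : InR W ds) :
    InR W (cs ++ ds) := by
  intro c hc
  rcases List.mem_append.1 hc with hc | hc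
  · exact h c hc
  · exact h' c hc

theorem InR.flatMap {W : ℕ} {α : Type} {l : List α} {f : α → List (List (Nm × Bool))}
    (h : ∀ a ∈ l, InR W (f a)) : InR W (l.flatMap f) := by
  intro c hc
  obtain ⟨a, ha, hc⟩ := List.mem_flatMap.1 hc
  exact h a ha c hc

theorem inR_tc {W k : ℕ} {φ : List Bool → Bool} {vs : List Nm}
    (h : ∀ v ∈ vs, v.1 < 16 ∧ v.2.1 < W) : InR W (tc k φ vs) :=
  fun _ hc _ hl => h _ (tc_mem hc hl)

theorem inR_incC {W N fx fc fy : ℕ} (hN : N < W) (h1 : fx < 16) (h2 : fc < 16) (h3 : fy < 16) :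
    InR W (incC N fx fc fy) := by
  refine InR.append (inR_tc ?_) (InR.flatMap fun k hk => inR_tc ?_)
  · intro v hv
    simp only [List.mem_singleton] at hv
    subst hv
    exact ⟨h2, by simp only; omega⟩
  · rw [List.mem_range] at hk
    intro v hv
    simp only [List.mem_cons, List.not_mem_nil, or_false] at hv
    rcases hv with rfl | rfl | rfl | rfl
    · exact ⟨h1, by simp only; omega⟩
    · exact ⟨h2, by simp only; omega⟩
    · exact ⟨h3, by simp only; omega⟩
    · exact ⟨h2, by simp only; omega⟩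

theorem inR_eqC {W n f g : ℕ} (hn : n ≤ W) (h1 : f < 16) (h2 : g < 16) : InR W (eqC n f g) := by
  refine InR.flatMap fun k hk => inR_tc ?_
  rw [List.mem_range] at hk
  intro v hv
  simp only [List.mem_cons, List.not_mem_nil, or_false] at hv
  rcases hv with rfl | rfl
  · exact ⟨h1, by simp only; omega⟩
  · exact ⟨h2, by simp only; omega⟩

theorem inR_dupC {W : ℕ} : InR W (dupC W) := by
  refine InR.flatMap fun f hf => InR.flatMap fun k hk => inR_tc ?_
  rw [List.mem_range] at hf hk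
  intro v hv
  simp only [List.mem_cons, List.not_mem_nil, or_false] at hv
  rcases hv with rfl | rfl <;> exact ⟨hf, hk⟩

theorem inR_mainC (D : Grid U) (N : ℕ) : InR (N + D.w + 1) (D.mainC N) := by
  refine inR_tc ?_
  intro v hv
  simp only [Grid.mainV, fld, List.mem_append, List.mem_cons, List.not_mem_nil, or_false,
    List.mem_map, List.mem_range] at hv
  rcases hv with (rfl | rfl) | ⟨k, hk, rfl⟩ | ⟨k, hk, rfl⟩ | ⟨k, hk, rfl⟩ | ⟨k, hk, rfl⟩ |
    ⟨k, hk, rfl⟩ <;> exact ⟨by norm_num, by simp only; omega⟩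

theorem inR_initC (D : Grid U) (N : ℕ) (ins : List U) : InR (N + D.w + 1) (D.initC N ins) := by
  refine InR.flatMap fun p _ => ?_
  intro c hc
  obtain ⟨⟨b, k⟩, hk, rfl⟩ := List.mem_map.1 hc
  have hk' := List.mem_zipIdx_iff_getElem?.1 hk
  have hkw := (List.getElem?_eq_some_iff.1 hk').1
  rw [D.enc_length] at hkw
  simp only at hkw
  intro l hl
  simp only [List.mem_cons, List.mem_map, List.mem_range] at hl
  rcases hl with rfl | rfl | ⟨k', hk', rfl⟩ <;> exact ⟨by norm_num, by simp only; omega⟩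

theorem inR_cls (D : Grid U) (N : ℕ) (ins : List U) :
    ∀ p ∈ D.cls N ins, ∀ l ∈ p.2, l.1.1 < 16 ∧ l.1.2.1 < N + D.w + 1 := by
  have h0 : InR (N + D.w + 1) (D.cls0 N ins) :=
    (inR_incC (by omega) (by norm_num) (by norm_num) (by norm_num)).append
      ((inR_incC (by omega) (by norm_num) (by norm_num) (by norm_num)).append
      ((inR_incC (by omega) (by norm_num) (by norm_num) (by norm_num)).append
      ((inR_mainC D N).append ((inR_initC D N ins).append inR_dupC))))
  intro p hp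
  rcases List.mem_append.1 hp with hp | hp
  · obtain ⟨c, hc, rfl⟩ := List.mem_map.1 hp
    exact h0 c hc
  · obtain ⟨s, hs, hp⟩ := List.mem_flatMap.1 hp
    obtain ⟨c, hc, rfl⟩ := List.mem_map.1 hp
    have hs' : s.1.1 < 16 ∧ s.1.2.1 < 16 ∧ s.1.2.2 < 16 := by
      have h1 : s.1 ∈ slots := by
        have h2 := List.mem_zipIdx_iff_getElem?.1 hs
        exact List.mem_of_getElem? h2
      simp only [slots, List.mem_cons, List.not_mem_nil, or_false] at h1
      rcases h1 with h1 | h1 | h1 | h1 | h1 <;> rw [h1] <;> norm_num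
    have h1 : InR (N + D.w + 1) (D.slotC N s.1) :=
      (inR_eqC (by omega) (by norm_num) hs'.1).append
        ((inR_eqC (by omega) (by norm_num) hs'.2.1).append
        (inR_eqC (by omega) (by norm_num) hs'.2.2))
    exact h1 c hc

theorem label_cls (D : Grid U) (N : ℕ) (ins : List U) : ∀ p ∈ D.cls N ins, p.1 ≤ 5 := by
  intro p hp
  rcases List.mem_append.1 hp with hp | hp
  · obtain ⟨c, hc, rfl⟩ := List.mem_map.1 hp
    exact Nat.zero_le _
  · obtain ⟨s, hs, hp⟩ := List.mem_flatMap.1 hp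
    obtain ⟨c, hc, rfl⟩ := List.mem_map.1 hp
    have h2 := (List.getElem?_eq_some_iff.1 (List.mem_zipIdx_iff_getElem?.1 hs)).1
    simp only [slots, List.length_cons, List.length_nil] at h2
    simp only
    omega

theorem cls_zero {D : Grid U} {N : ℕ} {ins : List U} {c : List (Nm × Bool)}
    (h : (0, c) ∈ D.cls N ins) : c ∈ D.cls0 N ins := by
  rcases List.mem_append.1 h with hp | hp
  · obtain ⟨c', hc, h'⟩ := List.mem_map.1 hp
    simp only [Prod.mk.injEq, true_and] at h'
    rwa [← h']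
  · obtain ⟨s, hs, hp⟩ := List.mem_flatMap.1 hp
    obtain ⟨c', hc, h'⟩ := List.mem_map.1 hp
    simp at h'

theorem cls_succ {D : Grid U} {N : ℕ} {ins : List U} {c : List (Nm × Bool)} {j : Fin 5}
    (h : (j.val + 1, c) ∈ D.cls N ins) : c ∈ D.slotC N (sl j) := by
  rcases List.mem_append.1 h with hp | hp
  · obtain ⟨c', hc, h'⟩ := List.mem_map.1 hp
    simp at h'
  · obtain ⟨s, hs, hp⟩ := List.mem_flatMap.1 hp
    obtain ⟨c', hc, h'⟩ := List.mem_map.1 hp
    simp only [Prod.mk.injEq, Nat.add_right_cancel_iff] at h'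
    obtain ⟨h1, rfl⟩ := h'
    have h2 := List.mem_zipIdx_iff_getElem?.1 hs
    have h3 : s.1 = sl j := by
      unfold sl
      rw [h1] at h2
      rw [List.getElem?_eq_getElem (by
        have := j.isLt
        simp only [slots, List.length_cons, List.length_nil]
        omega)] at h2
      exact (Option.some.inj h2).symm
    rwa [← h3]

section

variable (D : Grid U) (N : ℕ) (ins : List U)

/-- The position of a slot. -/
def pos (M : ℕ) (j : Fin 5) (t i : ℕ) : ℕ × ℕ :=
  match j with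
  | 0 => (t, (i + (M - 1)) % M)
  | 1 => (t, i)
  | 2 => (t, (i + 1) % M)
  | 3 => ((t + 1) % M, (i + (M - 1)) % M)
  | 4 => ((t + 1) % M, i)

/-- The digits of a value. -/
def Grid.dg (D : Grid U) (u : U) (k : ℕ) : Bool := (D.enc u).getD k false

/-- The assignment for the window at `(t, i)`, with the first side at the position `p`. -/
def Grid.asg (p : ℕ × ℕ) (t i : ℕ) : Nm → Bool := fun n =>
  let M := 2 ^ N
  let i0 := (i + (M - 1)) % M
  let i2 := (i + 1) % M
  let t' := (t + 1) % M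
  match n.1 with
  | 0 => p.1.testBit n.2.1
  | 1 => p.2.testBit n.2.1
  | 2 => D.dg (D.row ins M p.1 p.2) n.2.1
  | 3 => t.testBit n.2.1
  | 4 => t'.testBit n.2.1
  | 5 => carry (fun k => t.testBit k) n.2.1
  | 6 => i0.testBit n.2.1
  | 7 => i.testBit n.2.1
  | 8 => carry (fun k => i0.testBit k) n.2.1
  | 9 => i2.testBit n.2.1
  | 10 => carry (fun k => i.testBit k) n.2.1
  | 11 => D.dg (D.row ins M t i0) n.2.1
  | 12 => D.dg (D.row ins M t i) n.2.1
  | 13 => D.dg (D.row ins M t i2) n.2.1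
  | 14 => D.dg (D.row ins M t' i0) n.2.1
  | 15 => D.dg (D.row ins M t' i) n.2.1
  | _ => false

theorem asg_A {p : ℕ × ℕ} {t i t' i' : ℕ} {n : Nm} (h : n.1 < 3) :
    D.asg N ins p t i n = D.asg N ins p t' i' n := by
  obtain ⟨f, k, c⟩ := n
  simp only at h
  interval_cases f <;> rfl

theorem asg_B {p p' : ℕ × ℕ} {t i : ℕ} {n : Nm} (h : 3 ≤ n.1) :
    D.asg N ins p t i n = D.asg N ins p' t i n := by
  obtain ⟨f, k, c⟩ := n
  simp only at h
  rcases Nat.lt_or_ge f 16 with h' | h'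
  · interval_cases f <;> rfl
  · obtain ⟨g, rfl⟩ : ∃ g, f = g + 16 := ⟨f - 16, by omega⟩
    rfl

variable {D N ins}

theorem bv_dg {Y : Nm → Bool} {f : ℕ} {u : U} (h : ∀ k, Y (f, k, false) = D.dg u k) :
    bv Y f D.w = D.enc u :=
  (bv_eq_iff Y f D.w _ (D.enc_length u)).2 fun k _ => h k

theorem asg_spec (hins : ∀ u ∈ ins, u ≠ D.bl) (hn : ins.length < 2 ^ N)
    (hacc : D.acc (D.row ins (2 ^ N) (2 ^ N - 1) 0) = true) {p : ℕ × ℕ} {t i : ℕ}
    (ht : t < 2 ^ N) (hi : i < 2 ^ N) : Spec D N ins (D.asg N ins p t i) := by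
  have hMpos : 0 < 2 ^ N := Nat.two_pow_pos N
  have hi0 : (i + (2 ^ N - 1)) % 2 ^ N < 2 ^ N := Nat.mod_lt _ hMpos
  have hback : ((i + (2 ^ N - 1)) % 2 ^ N + 1) % 2 ^ N = i := by
    rw [Nat.mod_add_mod, show i + (2 ^ N - 1) + 1 = i + 2 ^ N by omega, Nat.add_mod_right,
      Nat.mod_eq_of_lt hi]
  have inc1 : IncSpec N (fun k => D.asg N ins p t i (3, k, false))
      (fun k => D.asg N ins p t i (5, k, false)) fun k => D.asg N ins p t i (4, k, false) :=
    incSpec_carry N t ht
  have inc2 : IncSpec N (fun k => D.asg N ins p t i (6, k, false))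
      (fun k => D.asg N ins p t i (8, k, false)) fun k => D.asg N ins p t i (7, k, false) := by
    have h1 := incSpec_carry N _ hi0
    rw [hback] at h1
    exact h1
  have hct := inc1.vl
  have hci := inc2.vl
  have e3 : vl (fun k => D.asg N ins p t i (3, k, false)) N = t := vl_of_testBit t N ht
  have e4 : vl (fun k => D.asg N ins p t i (4, k, false)) N = (t + 1) % 2 ^ N :=
    vl_of_testBit _ N (Nat.mod_lt _ hMpos)
  have e6 : vl (fun k => D.asg N ins p t i (6, k, false)) N = (i + (2 ^ N - 1)) % 2 ^ N :=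
    vl_of_testBit _ N hi0
  have e7 : vl (fun k => D.asg N ins p t i (7, k, false)) N = i := vl_of_testBit i N hi
  rw [e3, e4] at hct
  rw [e6, e7] at hci
  refine ⟨inc1, inc2, incSpec_carry N i hi, ?_, ?_, ?_⟩
  · refine ⟨_, _, _, _, _, bv_dg (u := D.row ins (2 ^ N) t ((i + (2 ^ N - 1)) % 2 ^ N)) fun _ => rfl,
      bv_dg (u := D.row ins (2 ^ N) t i) fun _ => rfl,
      bv_dg (u := D.row ins (2 ^ N) t ((i + 1) % 2 ^ N)) fun _ => rfl,
      bv_dg (u := D.row ins (2 ^ N) ((t + 1) % 2 ^ N) ((i + (2 ^ N - 1)) % 2 ^ N)) fun _ => rfl,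
      bv_dg (u := D.row ins (2 ^ N) ((t + 1) % 2 ^ N) i) fun _ => rfl, ?_⟩
    generalize D.asg N ins p t i (5, N, false) = zt at hct
    generalize D.asg N ins p t i (8, N, false) = zi at hci
    refine ⟨?_, ?_, ?_, ?_⟩
    · rintro rfl rfl
      simp only [Bool.toNat_false, Nat.zero_mul, Nat.add_zero, Bool.toNat_true, Nat.one_mul] at hct hci
      have h1 : i = 0 := by omega
      rw [hct, h1]
      rfl
    · rintro rfl rfl
      simp only [Bool.toNat_false, Nat.zero_mul, Nat.add_zero] at hct hci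
      rw [hct]
      generalize (i + (2 ^ N - 1)) % 2 ^ N = i0 at hci
      subst hci
      rfl
    · rintro rfl rfl hd
      simp only [Bool.toNat_false, Nat.zero_mul, Nat.add_zero, Bool.toNat_true, Nat.one_mul] at hct hci
      have h1 : (t + 1) % 2 ^ N = 0 := by
        have h2 : t + 1 = 2 ^ N := by omega
        rw [h2, Nat.mod_self]
      rw [h1] at hd ⊢
      generalize (i + (2 ^ N - 1)) % 2 ^ N = i0 at hci hd
      subst hci
      simp only [Grid.row] at hd ⊢
      have h3 : ins.length ≤ i0 := by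
        by_contra h3
        push Not at h3
        rw [List.getD_eq_getElem _ _ h3] at hd
        exact hins _ (List.getElem_mem _) hd
      rw [List.getD_eq_default _ _ (by omega)]
    · rintro rfl rfl
      simp only [Bool.toNat_true, Nat.one_mul] at hct hci
      have h1 : i = 0 := by omega
      have h2 : t = 2 ^ N - 1 := by omega
      rw [h1, h2]
      exact hacc
  · intro m hm h5 h7
    rw [h5] at hct
    simp only [Bool.toNat_true, Nat.one_mul] at hct
    have h1 : (t + 1) % 2 ^ N = 0 := by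
      have h2 : t + 1 = 2 ^ N := by omega
      rw [h2, Nat.mod_self]
    have h2 : i = m := by
      have h3 : vl (fun k => D.asg N ins p t i (7, k, false)) N = vl (fun k => m.testBit k) N :=
        vl_congr h7
      rw [e7, vl_of_testBit m N (by omega)] at h3
      exact h3
    have h3 : bv (D.asg N ins p t i) 15 D.w = D.enc (D.row ins (2 ^ N) ((t + 1) % 2 ^ N) i) :=
      bv_dg fun _ => rfl
    rw [h3, h1, h2]
    rfl
  · intro f hf k _
    interval_cases f <;> rfl

theorem asg_slot (j : Fin 5) (t i : ℕ) :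
    SlotSpec D N (sl j) (D.asg N ins (pos (2 ^ N) j t i) t i) := by
  fin_cases j <;> exact ⟨fun _ _ => rfl, fun _ _ => rfl, fun _ _ => rfl⟩

theorem pos_surj {M : ℕ} (j : Fin 5) {τ ι : ℕ} (hτ : τ < M) (hι : ι < M) :
    ∃ t i, t < M ∧ i < M ∧ pos M j t i = (τ, ι) := by
  have hM : 0 < M := by omega
  have h1 : ∀ a < M, ((a + 1) % M + (M - 1)) % M = a := by
    intro a ha
    rw [Nat.mod_add_mod, show a + 1 + (M - 1) = a + M by omega, Nat.add_mod_right,
      Nat.mod_eq_of_lt ha]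
  have h2 : ∀ a < M, ((a + (M - 1)) % M + 1) % M = a := by
    intro a ha
    rw [Nat.mod_add_mod, show a + (M - 1) + 1 = a + M by omega, Nat.add_mod_right,
      Nat.mod_eq_of_lt ha]
  fin_cases j
  · exact ⟨τ, (ι + 1) % M, hτ, Nat.mod_lt _ hM, by simp only [pos, h1 ι hι]⟩
  · exact ⟨τ, ι, hτ, hι, rfl⟩
  · exact ⟨τ, (ι + (M - 1)) % M, hτ, Nat.mod_lt _ hM, by simp only [pos, h2 ι hι]⟩
  · exact ⟨(τ + (M - 1)) % M, (ι + 1) % M, Nat.mod_lt _ hM, Nat.mod_lt _ hM, by
      simp only [pos, h1 ι hι, h2 τ hτ]⟩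
  · exact ⟨(τ + (M - 1)) % M, ι, Nat.mod_lt _ hM, hι, by simp only [pos, h2 τ hτ]⟩

theorem pos_lt {M : ℕ} (j : Fin 5) {t i : ℕ} (ht : t < M) (hi : i < M) :
    (pos M j t i).1 < M ∧ (pos M j t i).2 < M := by
  have hM : 0 < M := by omega
  fin_cases j
  · exact ⟨ht, Nat.mod_lt _ hM⟩
  · exact ⟨ht, hi⟩
  · exact ⟨ht, Nat.mod_lt _ hM⟩
  · exact ⟨Nat.mod_lt _ hM, Nat.mod_lt _ hM⟩
  · exact ⟨Nat.mod_lt _ hM, hi⟩

/-- **Completeness.** -/
theorem grid_complete (hins : ∀ u ∈ ins, u ≠ D.bl) (hn : ins.length < 2 ^ N)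
    (hacc : D.acc (D.row ins (2 ^ N) (2 ^ N - 1) 0) = true) :
    (mkSys (N + D.w + 1) (D.cls N ins)).Strong := by
  have hMpos : 0 < 2 ^ N := Nat.two_pow_pos N
  refine ⟨fun j X => ∃ t i, t < 2 ^ N ∧ i < 2 ^ N ∧
    X = restr (N + D.w + 1) (D.asg N ins (pos (2 ^ N) j t i) t i),
    ⟨0, _, 0, 0, hMpos, hMpos, rfl⟩, ?_⟩
  rintro j X ⟨t, i, ht, hi, rfl⟩
  refine ⟨?_, fun j' => ⟨?_, ?_⟩⟩
  · refine ok_complete (inR_cls D N ins) (label_cls D N ins) ?_
    rintro c (hc | hc)
    · exact sat_cls0.2 (asg_spec hins hn hacc ht hi) c (cls_zero hc)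
    · exact sat_slotC.2 (asg_slot j t i) c (cls_succ hc)
  · obtain ⟨h1, h2⟩ := pos_lt j ht hi
    obtain ⟨t', i', ht', hi', hpos⟩ := pos_surj j' h1 h2
    refine ⟨_, ⟨t', i', ht', hi', rfl⟩, fun r hr => ?_⟩
    simp only [mkSys, decide_eq_true_eq] at hr
    unfold restr
    rw [hpos]
    exact asg_A D N ins (p := pos (2 ^ N) j t i) hr
  · refine ⟨_, ⟨t, i, ht, hi, rfl⟩, fun r hr => ?_⟩
    simp only [mkSys, decide_eq_false_iff_not, not_lt] at hr
    unfold restr
    exact asg_B D N ins hr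

end

end Pool.Agent.H654R2.MED
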