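import Pool.Agent.H654R2.MED.GridSys

/-!
# Soundness of the constraint system of a space-time table
-/

namespace Pool.Agent.H654R2.MED

variable {U : Type}

/-- The slot of a label. -/
def sl (j : Fin 5) : ℕ × ℕ × ℕ := slots[j.val]

theorem mem_cls0 {D : Grid U} {N : ℕ} {ins : List U} {c : List (Nm × Bool)}
    (h : c ∈ D.cls0 N ins) : (0, c) ∈ D.cls N ins :=
  List.mem_append_left _ (List.mem_map.2 ⟨c, h, rfl⟩)

theorem mem_clsj {D : Grid U} {N : ℕ} {ins : List U} {c : List (Nm × Bool)} {j : Fin 5}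
    (h : c ∈ D.slotC N (sl j)) : (j.val + 1, c) ∈ D.cls N ins := by
  refine List.mem_append_right _ (List.mem_flatMap.2 ⟨(sl j, j.val), ?_, ?_⟩)
  · rw [List.mem_zipIdx_iff_getElem?]
    exact List.getElem?_eq_getElem _
  · exact List.mem_map.2 ⟨c, h, rfl⟩

/-- The facts expressed by the always active clauses. -/
structure Spec (D : Grid U) (N : ℕ) (ins : List U) (X : Nm → Bool) : Prop where
  inc1 : IncSpec N (fun k => X (3, k, false)) (fun k => X (5, k, false)) fun k => X (4, k, false)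
  inc2 : IncSpec N (fun k => X (6, k, false)) (fun k => X (8, k, false)) fun k => X (7, k, false)
  inc3 : IncSpec N (fun k => X (7, k, false)) (fun k => X (10, k, false)) fun k => X (9, k, false)
  main : ∃ a b c d o : U, bv X 11 D.w = D.enc a ∧ bv X 12 D.w = D.enc b ∧ bv X 13 D.w = D.enc c ∧
      bv X 14 D.w = D.enc d ∧ bv X 15 D.w = D.enc o ∧
      D.Rel (X (5, N, false)) (X (8, N, false)) a b c d o
  init : ∀ m ≤ ins.length, X (5, N, false) = true →
      (∀ k < N, X (7, k, false) = m.testBit k) → bv X 15 D.w = D.enc (ins.getD m D.bl)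
  dup : ∀ f < 16, ∀ k < N + D.w + 1, X (f, k, false) = X (f, k, true)

theorem sat_cls0 {D : Grid U} {N : ℕ} {ins : List U} {X : Nm → Bool} :
    Sat X (D.cls0 N ins) ↔ Spec D N ins X := by
  unfold Grid.cls0
  rw [Sat.append_iff, Sat.append_iff, Sat.append_iff, Sat.append_iff, Sat.append_iff, sat_incC,
    sat_incC, sat_incC, sat_mainC, sat_initC, sat_dupC]
  exact ⟨fun ⟨h1, h2, h3, h4, h5, h6⟩ => ⟨h1, h2, h3, h4, h5, h6⟩,
    fun ⟨h1, h2, h3, h4, h5, h6⟩ => ⟨h1, h2, h3, h4, h5, h6⟩⟩

/-- The facts expressed by the clauses of a label. -/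
def SlotSpec (D : Grid U) (N : ℕ) (s : ℕ × ℕ × ℕ) (X : Nm → Bool) : Prop :=
  (∀ k < N, X (0, k, false) = X (s.1, k, false)) ∧ (∀ k < N, X (1, k, false) = X (s.2.1, k, false)) ∧
    ∀ k < D.w, X (2, k, false) = X (s.2.2, k, false)

theorem sat_slotC {D : Grid U} {N : ℕ} {s : ℕ × ℕ × ℕ} {X : Nm → Bool} :
    Sat X (D.slotC N s) ↔ SlotSpec D N s X := by
  unfold Grid.slotC SlotSpec
  rw [Sat.append_iff, Sat.append_iff, sat_eqC, sat_eqC, sat_eqC]

/-- The number in a field. -/
def nf (N : ℕ) (X : Nm → Bool) (f : ℕ) : ℕ := vl (fun k => X (f, k, false)) N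

/-- The contents of three fields. -/
def sv (D : Grid U) (N : ℕ) (X : Nm → Bool) (s : ℕ × ℕ × ℕ) : ℕ × ℕ × List Bool :=
  (nf N X s.1, nf N X s.2.1, bv X s.2.2 D.w)

theorem nf_congr {N : ℕ} {X Y : Nm → Bool} {f g : ℕ}
    (h : ∀ k < N, X (f, k, false) = Y (g, k, false)) : nf N X f = nf N Y g := vl_congr h

theorem bv_congr {n : ℕ} {X Y : Nm → Bool} {f g : ℕ}
    (h : ∀ k < n, X (f, k, false) = Y (g, k, false)) : bv X f n = bv Y g n := by
  rw [bv_eq, bv_eq]
  exact List.map_congr_left fun k hk => h k (List.mem_range.1 hk)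

/-- The abstract content of the closure property. -/
theorem exists_pred {D : Grid U} {N : ℕ} {ins : List U}
    (h : (mkSys (N + D.w + 1) (D.cls N ins)).Weak) :
    ∃ P : ℕ × ℕ × List Bool → Prop, (∃ v, P v) ∧ ∀ v, P v → ∀ j : Fin 5, ∃ Y : Nm → Bool,
      Spec D N ins Y ∧ sv D N Y (sl j) = v ∧ ∀ j' : Fin 5, P (sv D N Y (sl j')) := by
  obtain ⟨F, hne, hF⟩ := h
  have hspec : ∀ j X, F j X → Spec D N ins (ext X) := by
    intro j X hX
    rw [← sat_cls0]
    intro c hc
    exact ok_sound (hF j X hX).1 c (Or.inl (mem_cls0 hc))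
  have hslot : ∀ j X, F j X → SlotSpec D N (sl j) (ext X) := by
    intro j X hX
    rw [← sat_slotC]
    intro c hc
    exact ok_sound (hF j X hX).1 c (Or.inr (mem_clsj hc))
  have hdup : ∀ j X, F j X → ∀ r : Fin 16 × Fin (N + D.w + 1) × Bool, X (r.1, r.2.1, !r.2.2) = X r := by
    intro j X hX r
    have h1 := (hspec j X hX).dup r.1.val r.1.isLt r.2.1.val r.2.1.isLt
    simp only [ext] at h1
    rw [dif_pos ⟨r.1.isLt, r.2.1.isLt⟩, dif_pos ⟨r.1.isLt, r.2.1.isLt⟩] at h1
    obtain ⟨f, k, c⟩ := r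
    cases c
    · exact h1.symm
    · exact h1
  have key : ∀ (b : Bool) j j' X X', F j X → F j' X' → (∀ r s : Fin 16 × Fin (N + D.w + 1) × Bool,
      decide (r.1.val < 3) = b → decide (s.1.val < 3) = b → X' r ≠ X r → X' s ≠ X s → r = s) →
      ∀ r : Fin 16 × Fin (N + D.w + 1) × Bool, decide (r.1.val < 3) = b → X' r = X r := by
    intro b j j' X X' hX hX' hu r hr
    by_contra hne
    have h1 := hu r (r.1, r.2.1, !r.2.2) hr hr hne (by
      rw [hdup j' X' hX', hdup j X hX]
      exact hne)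
    have h2 := congrArg (fun x => x.2.2) h1
    simp at h2
  have hext : ∀ (X : Fin 16 × Fin (N + D.w + 1) × Bool → Bool) f k, ∀ (hf : f < 16)
      (hk : k < N + D.w + 1), ext X (f, k, false) = X (⟨f, hf⟩, ⟨k, hk⟩, false) := by
    intro X f k hf hk
    unfold ext
    rw [dif_pos ⟨hf, hk⟩]
  have hsl : ∀ j : Fin 5, 3 ≤ (sl j).1 ∧ (sl j).1 < 16 ∧ 3 ≤ (sl j).2.1 ∧ (sl j).2.1 < 16 ∧
      3 ≤ (sl j).2.2 ∧ (sl j).2.2 < 16 := by
    intro j
    fin_cases j <;> simp [sl, slots]
  refine ⟨fun v => ∃ j X, F j X ∧ sv D N (ext X) (0, 1, 2) = v, ?_, ?_⟩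
  · obtain ⟨j, X, hX⟩ := hne
    exact ⟨_, j, X, hX, rfl⟩
  · rintro v ⟨j, X, hX, rfl⟩ j'
    obtain ⟨X', hX', hu⟩ := ((hF j X hX).2 j').1
    have hA := key true j j' X X' hX hX' (fun r s hr hs => hu r s hr hs)
    have hAe : ∀ f k, f < 3 → k < N + D.w + 1 → ext X (f, k, false) = ext X' (f, k, false) := by
      intro f k hf hk
      rw [hext X f k (by omega) hk, hext X' f k (by omega) hk]
      exact (hA _ (by simpa using hf)).symm
    have hs := hslot j' X' hX'
    refine ⟨ext X', hspec j' X' hX', ?_, ?_⟩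
    · unfold sv
      simp only
      have e1 : nf N (ext X') (sl j').1 = nf N (ext X) 0 :=
        nf_congr fun k hk => by rw [← hs.1 k hk, hAe 0 k (by omega) (by omega)]
      have e2 : nf N (ext X') (sl j').2.1 = nf N (ext X) 1 :=
        nf_congr fun k hk => by rw [← hs.2.1 k hk, hAe 1 k (by omega) (by omega)]
      have e3 : bv (ext X') (sl j').2.2 D.w = bv (ext X) 2 D.w :=
        bv_congr fun k hk => by rw [← hs.2.2 k hk, hAe 2 k (by omega) (by omega)]
      rw [e1, e2, e3]
    · intro j''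
      obtain ⟨X'', hX'', hu'⟩ := ((hF j' X' hX').2 j'').2
      have hB := key false j' j'' X' X'' hX' hX'' (fun r s hr hs => hu' r s hr hs)
      have hBe : ∀ f k, 3 ≤ f → f < 16 → k < N + D.w + 1 →
          ext X' (f, k, false) = ext X'' (f, k, false) := by
        intro f k hf hf' hk
        rw [hext X' f k hf' hk, hext X'' f k hf' hk]
        exact (hB _ (by simpa using hf)).symm
      have hs'' := hslot j'' X'' hX''
      obtain ⟨h1, h2, h3, h4, h5, h6⟩ := hsl j''
      refine ⟨j'', X'', hX'', ?_⟩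
      unfold sv
      simp only
      have e1 : nf N (ext X'') 0 = nf N (ext X') (sl j'').1 :=
        nf_congr fun k hk => by rw [hs''.1 k hk, hBe _ k h1 h2 (by omega)]
      have e2 : nf N (ext X'') 1 = nf N (ext X') (sl j'').2.1 :=
        nf_congr fun k hk => by rw [hs''.2.1 k hk, hBe _ k h3 h4 (by omega)]
      have e3 : bv (ext X'') 2 D.w = bv (ext X') (sl j'').2.2 D.w :=
        bv_congr fun k hk => by rw [hs''.2.2 k hk, hBe _ k h5 h6 (by omega)]
      rw [e1, e2, e3]

theorem nf_lt (N : ℕ) (X : Nm → Bool) (f : ℕ) : nf N X f < 2 ^ N := vl_lt _ _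

/-- **Soundness.** -/
theorem grid_sound {D : Grid U} {N : ℕ} {ins : List U}
    (h : (mkSys (N + D.w + 1) (D.cls N ins)).Weak) :
    D.acc (D.row ins (2 ^ N) (2 ^ N - 1) 0) = true := by
  obtain ⟨P, ⟨v0, hv0⟩, hP⟩ := exists_pred h
  set M := 2 ^ N with hM
  have hMpos : 0 < M := Nat.two_pow_pos N
  -- numerical facts
  have f1 : ∀ Y, Spec D N ins Y → nf N Y 4 + (Y (5, N, false)).toNat * M = nf N Y 3 + 1 :=
    fun Y hY => hY.inc1.vl
  have f2 : ∀ Y, Spec D N ins Y → nf N Y 7 + (Y (8, N, false)).toNat * M = nf N Y 6 + 1 :=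
    fun Y hY => hY.inc2.vl
  have f3 : ∀ Y, Spec D N ins Y → nf N Y 9 + (Y (10, N, false)).toNat * M = nf N Y 7 + 1 :=
    fun Y hY => hY.inc3.vl
  have lt : ∀ Y f, nf N Y f < M := fun Y f => nf_lt N Y f
  have hmod3 : ∀ Y, Spec D N ins Y → nf N Y 9 = (nf N Y 7 + 1) % M := by
    intro Y hY
    rw [← f3 Y hY, Nat.add_mul_mod_self_right, Nat.mod_eq_of_lt (lt Y 9)]
  have hmod1 : ∀ Y, Spec D N ins Y → nf N Y 4 = (nf N Y 3 + 1) % M := by
    intro Y hY
    rw [← f1 Y hY, Nat.add_mul_mod_self_right, Nat.mod_eq_of_lt (lt Y 4)]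
  have ct : ∀ Y, Spec D N ins Y → (Y (5, N, false) = true ↔ nf N Y 4 = 0) := by
    intro Y hY
    have h1 := f1 Y hY
    have h2 := lt Y 3
    have h3 := lt Y 4
    cases hb : Y (5, N, false) <;> rw [hb] at h1 <;> simp at h1 ⊢ <;> omega
  have ci : ∀ Y, Spec D N ins Y → (Y (8, N, false) = true ↔ nf N Y 7 = 0) := by
    intro Y hY
    have h1 := f2 Y hY
    have h2 := lt Y 6
    have h3 := lt Y 7
    cases hb : Y (8, N, false) <;> rw [hb] at h1 <;> simp at h1 ⊢ <;> omega
  have hi0 : ∀ Y, Spec D N ins Y → ∀ i, nf N Y 7 = i + 1 → nf N Y 6 = i := by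
    intro Y hY i hi
    have h1 := f2 Y hY
    have h2 : Y (8, N, false) = false := by
      by_contra h3
      have := (ci Y hY).1 (by simpa using h3)
      omega
    rw [h2] at h1
    simp at h1
    omega
  have hPs : ∀ Y, (∀ j' : Fin 5, P (sv D N Y (sl j'))) →
      P (nf N Y 3, nf N Y 6, bv Y 11 D.w) ∧ P (nf N Y 3, nf N Y 7, bv Y 12 D.w) ∧
      P (nf N Y 3, nf N Y 9, bv Y 13 D.w) ∧ P (nf N Y 4, nf N Y 6, bv Y 14 D.w) ∧
      P (nf N Y 4, nf N Y 7, bv Y 15 D.w) := fun Y hY => ⟨hY 0, hY 1, hY 2, hY 3, hY 4⟩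
  -- the truth of all values
  have truth : ∀ t < M, ∀ i < M, ∀ v, P (t, i, v) → v = D.enc (D.row ins M t i) := by
    intro t
    induction t with
    | zero =>
      intro _ i
      induction i with
      | zero =>
        intro _ v hv
        obtain ⟨Y, hY, hs, hp⟩ := hP _ hv 4
        have hs1 : nf N Y 4 = 0 := congrArg (fun x => x.1) hs
        have hs2 : nf N Y 7 = 0 := congrArg (fun x => x.2.1) hs
        have hs3 : bv Y 15 D.w = v := congrArg (fun x => x.2.2) hs
        rw [← hs3]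
        refine hY.init 0 (Nat.zero_le _) ((ct Y hY).2 hs1) ?_
        intro k hk
        have := vl_testBit (fun k => Y (7, k, false)) N k hk
        rw [← this]
        change (nf N Y 7).testBit k = _
        rw [hs2]
      | succ i ihi =>
        intro hi v hv
        obtain ⟨Y, hY, hs, hp⟩ := hP _ hv 4
        have hs1 : nf N Y 4 = 0 := congrArg (fun x => x.1) hs
        have hs2 : nf N Y 7 = i + 1 := congrArg (fun x => x.2.1) hs
        have hs3 : bv Y 15 D.w = v := congrArg (fun x => x.2.2) hs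
        rw [← hs3]
        rcases Nat.lt_or_ge ins.length (i + 1) with hlt | hge
        · obtain ⟨a, b, c, d, o, _, _, _, h4, h5, hr⟩ := hY.main
          have hpd := (hPs Y hp).2.2.2.1
          rw [hs1, hi0 Y hY i hs2] at hpd
          have hd := ihi (by omega) _ hpd
          rw [h4] at hd
          have hd' := D.enc_inj hd
          have hbl : D.row ins M 0 i = D.bl := by
            simp only [Grid.row]
            rw [List.getD_eq_default _ _ (by omega)]
          rw [hbl] at hd'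
          have hz : Y (8, N, false) = false := by
            by_contra h3
            have := (ci Y hY).1 (by simpa using h3)
            omega
          have ho := hr.2.2.1 ((ct Y hY).2 hs1) hz hd'
          rw [h5, ho]
          simp only [Grid.row]
          rw [List.getD_eq_default _ _ (by omega)]
        · refine hY.init (i + 1) hge ((ct Y hY).2 hs1) ?_
          intro k hk
          have := vl_testBit (fun k => Y (7, k, false)) N k hk
          rw [← this]
          change (nf N Y 7).testBit k = _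
          rw [hs2]
    | succ t iht =>
      intro ht i
      have iht' := iht (by omega)
      induction i with
      | zero =>
        intro _ v hv
        obtain ⟨Y, hY, hs, hp⟩ := hP _ hv 4
        have hs1 : nf N Y 4 = t + 1 := congrArg (fun x => x.1) hs
        have hs2 : nf N Y 7 = 0 := congrArg (fun x => x.2.1) hs
        have hs3 : bv Y 15 D.w = v := congrArg (fun x => x.2.2) hs
        have hzt : Y (5, N, false) = false := by
          by_contra h3
          have := (ct Y hY).1 (by simpa using h3)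
          omega
        have ht3 : nf N Y 3 = t := by
          have h1 := f1 Y hY
          rw [hzt] at h1
          simp at h1
          omega
        obtain ⟨a, b, c, d, o, h1, h2, h3, h4, h5, hr⟩ := hY.main
        obtain ⟨p1, p2, p3, p4, _⟩ := hPs Y hp
        rw [ht3] at p1 p2 p3
        have hb := iht' _ (lt Y 7) _ p2
        have hc := iht' _ (lt Y 9) _ p3
        rw [h2, hs2] at hb
        rw [h3, hmod3 Y hY, hs2] at hc
        have ho := hr.1 hzt ((ci Y hY).2 hs2)
        rw [← hs3, h5, ho, D.enc_inj hb, D.enc_inj hc]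
        rfl
      | succ i ihi =>
        intro hi v hv
        obtain ⟨Y, hY, hs, hp⟩ := hP _ hv 4
        have hs1 : nf N Y 4 = t + 1 := congrArg (fun x => x.1) hs
        have hs2 : nf N Y 7 = i + 1 := congrArg (fun x => x.2.1) hs
        have hs3 : bv Y 15 D.w = v := congrArg (fun x => x.2.2) hs
        have hzt : Y (5, N, false) = false := by
          by_contra h3
          have := (ct Y hY).1 (by simpa using h3)
          omega
        have ht3 : nf N Y 3 = t := by
          have h1 := f1 Y hY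
          rw [hzt] at h1
          simp at h1
          omega
        have hz : Y (8, N, false) = false := by
          by_contra h3
          have := (ci Y hY).1 (by simpa using h3)
          omega
        obtain ⟨a, b, c, d, o, h1, h2, h3, h4, h5, hr⟩ := hY.main
        obtain ⟨p1, p2, p3, p4, _⟩ := hPs Y hp
        rw [ht3] at p1 p2 p3
        have ha := iht' _ (lt Y 6) _ p1
        have hb := iht' _ (lt Y 7) _ p2
        have hc := iht' _ (lt Y 9) _ p3
        have hi6 := hi0 Y hY i hs2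
        rw [hs1, hi6] at p4
        have hd := ihi (by omega) _ p4
        rw [h1, hi6] at ha
        rw [h2, hs2] at hb
        rw [h3, hmod3 Y hY, hs2] at hc
        rw [h4] at hd
        have ho := hr.2.1 hzt hz
        rw [← hs3, h5, ho, D.enc_inj ha, D.enc_inj hb, D.enc_inj hc, D.enc_inj hd]
        rfl
  -- all positions occur
  have stepT : ∀ t i, (∃ v, P (t, i, v)) → ∃ v, P ((t + 1) % M, i, v) := by
    rintro t i ⟨v, hv⟩
    obtain ⟨Y, hY, hs, hp⟩ := hP _ hv 1
    have hs1 : nf N Y 3 = t := congrArg (fun x => x.1) hs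
    have hs2 : nf N Y 7 = i := congrArg (fun x => x.2.1) hs
    refine ⟨bv Y 15 D.w, ?_⟩
    have := (hPs Y hp).2.2.2.2
    rwa [hmod1 Y hY, hs1, hs2] at this
  have stepI : ∀ t i, (∃ v, P (t, i, v)) → ∃ v, P (t, (i + 1) % M, v) := by
    rintro t i ⟨v, hv⟩
    obtain ⟨Y, hY, hs, hp⟩ := hP _ hv 1
    have hs1 : nf N Y 3 = t := congrArg (fun x => x.1) hs
    have hs2 : nf N Y 7 = i := congrArg (fun x => x.2.1) hs
    refine ⟨bv Y 13 D.w, ?_⟩
    have := (hPs Y hp).2.2.1
    rwa [hmod3 Y hY, hs1, hs2] at this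
  have goT : ∀ k t i, t < M → (∃ v, P (t, i, v)) → ∃ v, P ((t + k) % M, i, v) := by
    intro k
    induction k with
    | zero => intro t i ht h; rwa [Nat.add_zero, Nat.mod_eq_of_lt ht]
    | succ k ih =>
      intro t i ht h
      have := stepT _ _ (ih t i ht h)
      rwa [Nat.mod_add_mod] at this
  have goI : ∀ k t i, i < M → (∃ v, P (t, i, v)) → ∃ v, P (t, (i + k) % M, v) := by
    intro k
    induction k with
    | zero => intro t i ht h; rwa [Nat.add_zero, Nat.mod_eq_of_lt ht]
    | succ k ih =>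
      intro t i ht h
      have := stepI _ _ (ih t i ht h)
      rwa [Nat.mod_add_mod] at this
  obtain ⟨v, hv⟩ : ∃ v, P (M - 1, 0, v) := by
    obtain ⟨Y, hY, hs, hp⟩ := hP _ hv0 1
    have h1 : ∃ v, P (nf N Y 3, nf N Y 7, v) := ⟨_, (hPs Y hp).2.1⟩
    have h2 := goT (M - 1 - nf N Y 3) _ _ (lt Y 3) h1
    have h3 := goI (M - nf N Y 7) _ _ (lt Y 7) h2
    have l3 := lt Y 3
    have l7 := lt Y 7
    have e1 : (nf N Y 3 + (M - 1 - nf N Y 3)) % M = M - 1 := by
      rw [show nf N Y 3 + (M - 1 - nf N Y 3) = M - 1 by omega, Nat.mod_eq_of_lt (by omega)]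
    have e2 : (nf N Y 7 + (M - nf N Y 7)) % M = 0 := by
      rw [show nf N Y 7 + (M - nf N Y 7) = M by omega, Nat.mod_self]
    rwa [e1, e2] at h3
  obtain ⟨Y, hY, hs, hp⟩ := hP _ hv 1
  have hs1 : nf N Y 3 = M - 1 := congrArg (fun x => x.1) hs
  have hs2 : nf N Y 7 = 0 := congrArg (fun x => x.2.1) hs
  have hzt : Y (5, N, false) = true := by
    rw [ct Y hY, hmod1 Y hY, hs1, Nat.sub_add_cancel hMpos, Nat.mod_self]
  obtain ⟨a, b, c, d, o, h1, h2, h3, h4, h5, hr⟩ := hY.main
  have hacc := hr.2.2.2 hzt ((ci Y hY).2 hs2)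
  have hb := truth _ (lt Y 3) _ (lt Y 7) _ (hPs Y hp).2.1
  rw [h2, hs1, hs2] at hb
  rw [← D.enc_inj hb]
  exact hacc

end Pool.Agent.H654R2.MED
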