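import Pool.Agent.H654R2.MED.Grid

/-!
# The constraint system of a list of clauses
-/

namespace Pool.Agent.H654R2.MED

/-- The constraint system of a list of clauses with named registers. -/
def mkSys (W : ℕ) (cl : List Cl) : Sys (Fin 16 × Fin W × Bool) (Fin 5) (Fin cl.length) where
  isA r := decide (r.1.val < 3)
  lab q := if h : 0 < (cl[q]).1 ∧ (cl[q]).1 ≤ 5 then some ⟨(cl[q]).1 - 1, by omega⟩ else none
  lit q r v := decide ((((r.1.val, r.2.1.val, r.2.2) : Nm), v) ∈ (cl[q]).2)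

/-- Extension of an assignment to all names. -/
def ext {W : ℕ} (X : Fin 16 × Fin W × Bool → Bool) : Nm → Bool := fun n =>
  if h : n.1 < 16 ∧ n.2.1 < W then X (⟨n.1, h.1⟩, ⟨n.2.1, h.2⟩, n.2.2) else false

/-- Restriction of an assignment. -/
def restr (W : ℕ) (Y : Nm → Bool) : Fin 16 × Fin W × Bool → Bool := fun r =>
  Y (r.1.val, r.2.1.val, r.2.2)

theorem ok_sound {W : ℕ} {cl : List Cl} {j : Fin 5} {X : Fin 16 × Fin W × Bool → Bool}
    (h : (mkSys W cl).Ok j X) (c : List (Nm × Bool)) (hc : (0, c) ∈ cl ∨ (j.val + 1, c) ∈ cl) :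
    ∃ l ∈ c, ext X l.1 = l.2 := by
  have key : ∀ q : Fin cl.length, (cl[q]).2 = c → ((mkSys W cl).lab q = none ∨
      (mkSys W cl).lab q = some j) → ∃ l ∈ c, ext X l.1 = l.2 := by
    intro q hq hl
    obtain ⟨r, hr⟩ := h q hl
    simp only [mkSys, decide_eq_true_eq] at hr
    rw [hq] at hr
    refine ⟨_, hr, ?_⟩
    unfold ext
    rw [dif_pos ⟨r.1.isLt, r.2.1.isLt⟩]
  rcases hc with hc | hc
  · obtain ⟨q, hq, hq'⟩ := List.getElem_of_mem hc
    refine key ⟨q, hq⟩ ?_ (Or.inl ?_)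
    · simp [hq']
    · simp [mkSys, hq']
  · obtain ⟨q, hq, hq'⟩ := List.getElem_of_mem hc
    refine key ⟨q, hq⟩ ?_ (Or.inr ?_)
    · simp [hq']
    · have : j.val + 1 ≤ 5 := by omega
      simp [mkSys, hq', this]

theorem ok_complete {W : ℕ} {cl : List Cl} {j : Fin 5} {Y : Nm → Bool}
    (hr : ∀ p ∈ cl, ∀ l ∈ p.2, l.1.1 < 16 ∧ l.1.2.1 < W) (hl : ∀ p ∈ cl, p.1 ≤ 5)
    (h : ∀ c, (0, c) ∈ cl ∨ (j.val + 1, c) ∈ cl → ∃ l ∈ c, Y l.1 = l.2) :
    (mkSys W cl).Ok j (restr W Y) := by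
  intro q hq
  have hmem : cl[q] ∈ cl := List.getElem_mem _
  have hc : (0, (cl[q]).2) ∈ cl ∨ (j.val + 1, (cl[q]).2) ∈ cl := by
    rcases hq with hq | hq
    · left
      have h0 : (cl[q]).1 = 0 := by
        by_contra h0
        have h1 := hl _ hmem
        simp only [mkSys] at hq
        rw [dif_pos ⟨by omega, h1⟩] at hq
        exact absurd hq (by simp)
      rw [← h0]
      exact hmem
    · right
      have h0 : (cl[q]).1 = j.val + 1 := by
        simp only [mkSys] at hq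
        split_ifs at hq with h1
        have h2 := congrArg Fin.val (Option.some.inj hq)
        simp only at h2
        omega
      rw [← h0]
      exact hmem
  obtain ⟨l, hl1, hl2⟩ := h _ hc
  obtain ⟨h1, h2⟩ := hr _ hmem l hl1
  refine ⟨(⟨l.1.1, h1⟩, ⟨l.1.2.1, h2⟩, l.1.2.2), ?_⟩
  simp only [mkSys, restr, decide_eq_true_eq]
  rw [hl2]
  exact hl1

end Pool.Agent.H654R2.MED
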