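import Pool.Agent.H654R2.MED.GridComp
import Pool.Agent.NPC.CookLevin3

/-!
# The space-time table of a stack machine
-/

namespace Pool.Agent.H654R2.MED

open Function (update)
open Turing Pool.Agent.NPC.CL

section NMachine

variable {Q K A : Type} [DecidableEq K]

/-- The content of the cell at depth `i`, for pointer `n` and memory `m`. -/
def ctf (n : ℕ) (m : ℕ → Option A) (i : ℕ) : Option A := if i < n then m (n - 1 - i) else none

/-- The content of the cell at depth `i` of stack `k`. -/
def cont (c : Cf Q K A) (k : K) (i : ℕ) : Option A := ctf (c.h k) (c.m k) i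

omit [DecidableEq K] in
theorem cont_zero (c : Cf Q K A) (k : K) : cont c k 0 = c.read k := by
  unfold cont Cf.read ctf
  cases h : c.h k <;> simp

/-- The operation which is really carried out. -/
def eff (op : Op A) (r : Option A) : Op A :=
  match op, r with
  | Op.pop, none => Op.keep
  | op, _ => op

/-- The operation of a step. -/
def NM.eop (M : NM Q K A) (q : Q) (r : Option A) : Op A := eff (M.δ q r).2 r

/-- The new content of a cell other than the top one. -/
def shift (e : Op A) (a b c : Option A) : Option A :=
  match e with
  | Op.keep => b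
  | Op.pop => c
  | Op.push _ => a

/-- The new content of the top cell. -/
def shift0 (e : Op A) (b c : Option A) : Option A :=
  match e with
  | Op.keep => b
  | Op.pop => c
  | Op.push a => some a

theorem ctf_zero (op : Op A) (r : Option A) (n : ℕ) (m : ℕ → Option A) :
    ctf (newPtr op r n) (newMem op n m) 0 = shift0 (eff op r) (ctf n m 0) (ctf n m 1) := by
  cases op with
  | keep => rfl
  | pop =>
    cases r with
    | none => rfl
    | some a =>
      change ctf (n - 1) m 0 = ctf n m 1
      unfold ctf
      by_cases h1 : 1 < n
      · rw [if_pos (by omega), if_pos h1]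
        congr 1
      · rw [if_neg (by omega), if_neg h1]
  | push a =>
    change ctf (n + 1) (update m n (some a)) 0 = some a
    simp [ctf]

theorem ctf_succ (op : Op A) (r : Option A) (n : ℕ) (m : ℕ → Option A) (i : ℕ) :
    ctf (newPtr op r n) (newMem op n m) (i + 1) =
      shift (eff op r) (ctf n m i) (ctf n m (i + 1)) (ctf n m (i + 2)) := by
  cases op with
  | keep => rfl
  | pop =>
    cases r with
    | none => rfl
    | some a =>
      change ctf (n - 1) m (i + 1) = ctf n m (i + 2)
      unfold ctf
      by_cases h1 : i + 2 < n
      · rw [if_pos (by omega), if_pos h1]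
        congr 1
        omega
      · rw [if_neg (by omega), if_neg h1]
  | push a =>
    change ctf (n + 1) (update m n (some a)) (i + 1) = ctf n m i
    unfold ctf
    by_cases h1 : i < n
    · rw [if_pos (by omega), if_pos h1, Function.update_of_ne (by omega)]
      congr 1
      omega
    · rw [if_neg (by omega), if_neg h1]

theorem cont_step_ne (M : NM Q K A) (c : Cf Q K A) (k : K) (hk : k ≠ M.κ c.q) (i : ℕ) :
    cont (M.step c) k i = cont c k i := by
  unfold cont
  simp only [NM.step, Function.update_of_ne hk]

theorem cont_step_zero (M : NM Q K A) (c : Cf Q K A) :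
    cont (M.step c) (M.κ c.q) 0 =
      shift0 (NM.eop M c.q (c.read (M.κ c.q))) (cont c (M.κ c.q) 0) (cont c (M.κ c.q) 1) := by
  unfold cont
  simp only [NM.step, Function.update_self, NM.eop]
  exact ctf_zero _ _ _ _

theorem cont_step_succ (M : NM Q K A) (c : Cf Q K A) (i : ℕ) :
    cont (M.step c) (M.κ c.q) (i + 1) =
      shift (NM.eop M c.q (c.read (M.κ c.q))) (cont c (M.κ c.q) i) (cont c (M.κ c.q) (i + 1))
        (cont c (M.κ c.q) (i + 2)) := by
  unfold cont
  simp only [NM.step, Function.update_self, NM.eop]
  exact ctf_succ _ _ _ _ _

/-- The values of the table: control state, stack and operation of the last step, contents. -/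
abbrev Val (Q K A : Type) : Type := (Q × K × Op A) × (K → Option A)

/-- The rule for column 0. -/
def v0 (M : NM Q K A) (b c : Val Q K A) : Val Q K A :=
  (((M.δ b.1.1 (b.2 (M.κ b.1.1))).1, M.κ b.1.1, NM.eop M b.1.1 (b.2 (M.κ b.1.1))),
    fun k => if k = M.κ b.1.1 then shift0 (NM.eop M b.1.1 (b.2 (M.κ b.1.1))) (b.2 k) (c.2 k)
      else b.2 k)

/-- The rule for the other columns. -/
def v1 (a b c d : Val Q K A) : Val Q K A :=
  (d.1, fun k => if k = d.1.2.1 then shift d.1.2.2 (a.2 k) (b.2 k) (c.2 k) else b.2 k)

/-- Codes of the elements of a finite type. -/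
noncomputable def oneHot {U : Type} [Fintype U] (u : U) : List Bool :=
  open Classical in (Finset.univ : Finset U).toList.map fun v => decide (v = u)

theorem oneHot_inj {U : Type} [Fintype U] : Function.Injective (oneHot (U := U)) := by
  classical
  intro u v h
  unfold oneHot at h
  have h1 := (List.map_inj_left.1 h) u (by simp)
  simp only [decide_true] at h1
  exact of_decide_eq_true h1.symm

variable [Fintype Q] [Fintype K] [Fintype A]

instance : Fintype (Op A) :=
  Fintype.ofEquiv (Option (Option A))
    { toFun := fun o => match o with
        | none => Op.keep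
        | some none => Op.pop
        | some (some a) => Op.push a
      invFun := fun o => match o with
        | Op.keep => none
        | Op.pop => some none
        | Op.push a => some (some a)
      left_inv := by rintro (_ | _ | _) <;> rfl
      right_inv := by rintro (_ | _ | _) <;> rfl }

/-- The table of a machine. -/
noncomputable def gridOf (T : Tab Q K A) : Grid (Val Q K A) where
  bl := ((T.q₀, T.k₀, Op.keep), fun _ => none)
  n0 := v0 T.M
  n1 := v1
  acc b := T.acc b.1.1 && T.good (b.2 T.k₁)
  w := Fintype.card (Val Q K A)
  enc := oneHot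
  enc_length u := by
    unfold oneHot
    simp [Finset.length_toList]
  enc_inj := oneHot_inj

/-- The value of an input cell. -/
def inVal (T : Tab Q K A) (b : Bool) : Val Q K A :=
  ((T.q₀, T.k₀, Op.keep), fun k => if k = T.k₀ then some (T.sym b) else none)

/-- The last operation before time `t`. -/
def lastOp (T : Tab Q K A) (y : List Bool) : ℕ → K × Op A
  | 0 => (T.k₀, Op.keep)
  | t + 1 => (T.M.κ (run T 0 y [] t).q, NM.eop T.M (run T 0 y [] t).q
      ((run T 0 y [] t).read (T.M.κ (run T 0 y [] t).q)))

/-- The true value. -/
def real (T : Tab Q K A) (y : List Bool) (t i : ℕ) : Val Q K A :=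
  (((run T 0 y [] t).q, lastOp T y t), fun k => cont (run T 0 y [] t) k i)

omit [Fintype Q] [Fintype K] [Fintype A] in
theorem real_zero (T : Tab Q K A) (y : List Bool) (i : ℕ) :
    (y.map (inVal T)).getD i ((T.q₀, T.k₀, Op.keep), fun _ => none) = real T y 0 i := by
  have hrun : run T 0 y [] 0 = init T 0 y [] := rfl
  unfold real
  rw [hrun]
  have hc : ∀ k, cont (init T 0 y []) k i =
      if k = T.k₀ then (y[i]?).map (fun b => T.sym b) else none := by
    intro k
    unfold cont ctf
    simp only [init, Nat.zero_add, List.length_nil, Nat.sub_zero, List.replicate_zero,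
      List.nil_append, List.append_nil]
    by_cases hk : k = T.k₀
    · simp only [hk, if_true]
      by_cases hi : i < y.length
      · rw [if_pos hi, List.getElem?_reverse (by simpa using (by omega : y.length - 1 - i < y.length))]
        simp only [List.length_map, List.getElem?_map]
        rw [show y.length - 1 - (y.length - 1 - i) = i by omega]
        rw [List.getElem?_eq_getElem hi]
        rfl
      · rw [if_neg hi, List.getElem?_eq_none (by omega)]
        rfl
    · simp [hk]
  rw [List.getD_eq_getElem?_getD, List.getElem?_map]
  by_cases hi : i < y.length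
  · rw [List.getElem?_eq_getElem hi]
    refine Prod.ext rfl ?_
    funext k
    have h1 := hc k
    rw [List.getElem?_eq_getElem hi] at h1
    exact h1.symm
  · rw [List.getElem?_eq_none (by omega)]
    refine Prod.ext rfl ?_
    funext k
    have h1 := hc k
    rw [List.getElem?_eq_none (by omega)] at h1
    simp only [Option.map_none, ite_self] at h1
    exact h1.symm

theorem row_eq_real (T : Tab Q K A) (y : List Bool) (M : ℕ) :
    ∀ t i, i + t < M → (gridOf T).row (y.map (inVal T)) M t i = real T y t i := by
  intro t
  induction t with
  | zero =>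
    intro i _
    exact real_zero T y i
  | succ t iht =>
    intro i
    have hrun : run T 0 y [] (t + 1) = T.M.step (run T 0 y [] t) := run_succ T 0 y [] t
    induction i with
    | zero =>
      intro h
      change v0 T.M ((gridOf T).row (y.map (inVal T)) M t 0)
        ((gridOf T).row (y.map (inVal T)) M t (1 % M)) = _
      rw [Nat.mod_eq_of_lt (by omega), iht 0 (by omega), iht 1 (by omega)]
      unfold real
      rw [hrun]
      simp only [v0, cont_zero, lastOp]
      refine Prod.ext rfl ?_
      funext k
      simp only
      by_cases hk : k = T.M.κ (run T 0 y [] t).q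
      · rw [if_pos hk, hk, ← cont_zero (T.M.step (run T 0 y [] t)), cont_step_zero, cont_zero]
      · rw [if_neg hk, ← cont_zero (T.M.step (run T 0 y [] t)), cont_step_ne _ _ _ hk, cont_zero]
    | succ i ihi =>
      intro h
      change v1 ((gridOf T).row (y.map (inVal T)) M t i) ((gridOf T).row (y.map (inVal T)) M t (i + 1))
        ((gridOf T).row (y.map (inVal T)) M t ((i + 2) % M))
        ((gridOf T).row (y.map (inVal T)) M (t + 1) i) = _
      rw [Nat.mod_eq_of_lt (by omega), iht i (by omega), iht (i + 1) (by omega),
        iht (i + 2) (by omega), ihi (by omega)]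
      refine Prod.ext rfl ?_
      funext k
      change (if k = T.M.κ (run T 0 y [] t).q then
        shift (NM.eop T.M (run T 0 y [] t).q ((run T 0 y [] t).read (T.M.κ (run T 0 y [] t).q)))
        (cont (run T 0 y [] t) k i) (cont (run T 0 y [] t) k (i + 1)) (cont (run T 0 y [] t) k (i + 2))
        else cont (run T 0 y [] t) k (i + 1)) = cont (run T 0 y [] (t + 1)) k (i + 1)
      rw [hrun]
      by_cases hk : k = T.M.κ (run T 0 y [] t).q
      · rw [if_pos hk, hk, cont_step_succ]
      · rw [if_neg hk, cont_step_ne _ _ _ hk]

end NMachine

/-- The control state and the top of the output stack after the machine has stopped. -/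
theorem tab_read (tm : FinTM2) (inE : tm.Γ tm.k₀ ≃ Bool) (outE : tm.Γ tm.k₁ ≃ Bool)
    (y : List Bool) (b : Bool) (B N : ℕ)
    (hV : TM2OutputsInTime tm (List.map inE.invFun y) (some (List.map outE.invFun [b])) B)
    (hN : B * maxDepth tm ≤ N) :
    ((tab tm inE outE).acc (run (tab tm inE outE) 0 y [] N).q &&
      (tab tm inE outE).good ((run (tab tm inE outE) 0 y [] N).read tm.k₁)) = b := by
  obtain ⟨⟨n, hn⟩, hnB⟩ := hV
  simp only at hnB
  obtain ⟨m, hm, hm'⟩ := micro_steps tm.m (maxDepth tm) (depth_le_maxDepth tm) n _ _ hn
  have hmN : m ≤ N := hm.trans ((Nat.mul_le_mul_right _ hnB).trans hN)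
  have hrel := (init_rel tm inE outE 0 y [] le_rfl).iterate N
  have e1 : (micro tm.m)^[N] (toMS tm.m (initList tm (List.map inE.symm (y ++ [])))) =
      toMS tm.m (haltList tm (List.map outE.symm [b])) := by
    have : N = (N - m) + m := by omega
    rw [this, Function.iterate_add_apply, List.append_nil]
    change (micro tm.m)^[N - m] ((micro tm.m)^[m] (toMS tm.m (initList tm
      (List.map inE.invFun y)))) = _
    rw [hm']
    exact micro_halted _ _ _ _
  rw [e1] at hrel
  change Rel tm _ _ (run (tab tm inE outE) 0 y [] N) at hrel
  have hq : (tab tm inE outE).acc (run (tab tm inE outE) 0 y [] N).q = true := by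
    rw [hrel.q]
    rfl
  have hr := hrel.read tm.k₁
  have h4 : (toMS tm.m (haltList tm (List.map outE.symm [b]))).2.2 tm.k₁ =
      List.map outE.symm [b] := by
    simp [toMS, haltList]
  rw [h4] at hr
  rw [hq, Bool.true_and]
  have hgood : ∀ o, (tab tm inE outE).good o = true ↔
      o.bind (val tm tm.k₁) = some (outE.symm true) := by
    classical
    intro o
    simp [tab]
  rw [Bool.eq_iff_iff, hgood, hr]
  simp

end Pool.Agent.H654R2.MED
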