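import Pool.Agent.H654R2.MED.Sys

/-!
# Stubs
-/

namespace Pool.Agent.H654R2.MED

variable {R J Q : Type} [DecidableEq R] [DecidableEq J]

/-- task G1 -/
theorem Sys.complete [Fintype R] (S : Sys R J Q) (h : S.Strong) :
    ∃ F, IsStrategy S.graph (Fintype.card R + 2) F := by
  sorry

/-- task G2 -/
theorem Sys.sound [Fintype R] [Nonempty J] (S : Sys R J Q) {k : ℕ} (hk : k ≤ Fintype.card R + 2)
    {F : Set (Finset (Vx R J Q))} (h : IsStrategy S.graph k F) : S.Weak := by
  sorry

end Pool.Agent.H654R2.MED
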